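import Mathlib

set_option autoImplicit false

namespace Pool.Agent.H440S

/-- the group ℚ ⋊ ℤ with `(s,i)(s',i') = (s + 2^i s', i+i')`, ordered lexicographically. -/
@[ext] structure BG where
  s : ℚ
  i : ℤ

namespace BG

instance : Mul BG := ⟨fun x y => ⟨x.s + 2 ^ x.i * y.s, x.i + y.i⟩⟩
instance : One BG := ⟨⟨0, 0⟩⟩
instance : Inv BG := ⟨fun x => ⟨-(2 ^ (-x.i) * x.s), -x.i⟩⟩

@[simp] lemma mul_s (x y : BG) : (x * y).s = x.s + 2 ^ x.i * y.s := rfl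
@[simp] lemma mul_i (x y : BG) : (x * y).i = x.i + y.i := rfl
@[simp] lemma one_s : (1 : BG).s = 0 := rfl
@[simp] lemma one_i : (1 : BG).i = 0 := rfl
@[simp] lemma inv_s (x : BG) : (x⁻¹).s = -(2 ^ (-x.i) * x.s) := rfl
@[simp] lemma inv_i (x : BG) : (x⁻¹).i = -x.i := rfl

instance : Group BG where
  mul_assoc x y z := by
    ext
    · simp [zpow_add₀ (two_ne_zero : (2:ℚ) ≠ 0)]; ring
    · simp [add_assoc]
  one_mul x := by ext <;> simp
  mul_one x := by ext <;> simp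
  inv_mul_cancel x := by
    ext
    · simp
    · simp

noncomputable instance : LinearOrder BG :=
  LinearOrder.lift' (fun x : BG => (toLex (x.s, x.i) : ℚ ×ₗ ℤ))
    (by intro x y h; have := toLex.injective h; ext <;> simp_all [Prod.ext_iff])

lemma lt_iff (x y : BG) : x < y ↔ x.s < y.s ∨ (x.s = y.s ∧ x.i < y.i) := by
  change (toLex (x.s, x.i) : ℚ ×ₗ ℤ) < toLex (y.s, y.i) ↔ _
  rw [Prod.Lex.toLex_lt_toLex]

lemma mul_lt_mul_left' (a : BG) {x y : BG} (h : x < y) : a * x < a * y := by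
  rw [lt_iff] at *
  have h2 : (0:ℚ) < 2 ^ a.i := zpow_pos (by norm_num) _
  rcases h with h | ⟨h, h'⟩
  · left
    have := mul_lt_mul_of_pos_left h h2
    simp only [mul_s]
    linarith
  · right; simp [h, h']

end BG

/-- the group algebra `ℚ[BG]` -/
abbrev GA : Type := MonoidAlgebra ℚ BG

/-- leading value at `x` of an element of the group algebra: the largest `g * x`, `g` in the support -/
noncomputable def lead (x : BG) (p : GA) : WithBot BG :=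
  p.coeff.support.sup (fun g => ((g * x : BG) : WithBot BG))

/-- `f = s⁻¹ r` in a division ring of left fractions of `ℚ[BG]` has value `< c` -/
def InM {F : Type} [DivisionRing F] (ι : GA →+* F) (c : ℚ) (f : F) : Prop :=
  ∃ (x : BG) (s r : GA), x.s < c ∧ s ≠ 0 ∧ ι s * f = ι r ∧ lead 1 r < lead x s

/-- a division ring with a chain of additive subgroups and a compatible action of `BG` -/
structure VData where
  F : Type
  [inst : DivisionRing F]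
  M : ℚ → AddSubgroup F
  aff : BG →* F
  mono : ∀ c d : ℚ, c ≤ d → M c ≤ M d
  haff : ∀ (g : BG) (c : ℚ) (f : F), aff g * f ∈ M (g.s + 2 ^ g.i * c) ↔ f ∈ M c
  tot : ∀ f f' : F, (∀ (h : F) (c : ℚ), h * f ∈ M c → h * f' ∈ M c) ∨
    (∀ (h : F) (c : ℚ), h * f' ∈ M c → h * f ∈ M c)
  one_not : (1 : F) ∉ M 0
  one_mem : ∀ c : ℚ, 0 < c → (1 : F) ∈ M c

attribute [instance] VData.inst

/-- what is extracted from `VData`: a division ring with four additive subgroups and five elements -/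
structure EData where
  F : Type
  [inst : DivisionRing F]
  M0 : AddSubgroup F
  M2 : AddSubgroup F
  M5 : AddSubgroup F
  M6 : AddSubgroup F
  h02 : M0 ≤ M2
  h25 : M2 ≤ M5
  h56 : M5 ≤ M6
  tot : ∀ f f' : F, ∃ r : F, (∀ g ∈ M0, g * r ∈ M0) ∧ (∀ g ∈ M2, g * r ∈ M2) ∧
    (∀ g ∈ M5, g * r ∈ M5) ∧ (∀ g ∈ M6, g * r ∈ M6) ∧ (f' = f * r ∨ f = f' * r)
  b : F
  t : F
  π : F
  a : F
  w : F
  hb0 : ∀ f ∈ M0, b * f ∈ M0
  hb5 : ∀ f ∈ M5, b * f ∈ M5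
  ht0 : ∀ f ∈ M0, t * f ∈ M0
  ht5 : ∀ f ∈ M5, t * f ∈ M5
  hπ0 : ∀ f ∈ M0, π * f ∈ M0
  hπ5 : ∀ f ∈ M5, π * f ∈ M5
  ha2 : ∀ f ∈ M2, a * f ∈ M2
  ha6 : ∀ f ∈ M6, a * f ∈ M6
  hw2 : ∀ f ∈ M2, w * f ∈ M2
  hw6 : ∀ f ∈ M6, w * f ∈ M6
  hy2 : ∀ f ∈ M2, t * (b * f) ∈ M0
  hy6 : ∀ f ∈ M6, t * (b * f) ∈ M5
  b_inj : ∀ f ∈ M5, b * f ∈ M0 → f ∈ M0
  b_ns : ∃ m ∈ M5, ∀ f ∈ M5, b * f - m ∉ M0
  t_surj : ∀ m ∈ M5, ∃ f ∈ M5, t * f - m ∈ M0
  t_ni : ∃ f ∈ M5, f ∉ M0 ∧ t * f ∈ M0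
  a_inj : ∀ f ∈ M6, a * f ∈ M2 → f ∈ M2
  a_ns : ∃ m ∈ M6, ∀ f ∈ M6, a * f - m ∉ M2
  w_surj : ∀ m ∈ M6, ∃ f ∈ M6, w * f - m ∈ M2
  w_ni : ∃ f ∈ M6, f ∉ M2 ∧ w * f ∈ M2
  ya : ∀ f ∈ M6, t * (b * (a * f)) ∈ M0
  wc : ∀ f ∈ M5, w * f ∈ M2
  wa : ∀ f ∈ M6, w * (a * f) ∈ M2
  πb : ∀ f ∈ M5, π * (b * f) - b * (π * f) ∈ M0
  πt : ∀ f ∈ M5, π * (t * f) - t * (π * f) ∈ M0
  πc : ∀ f ∈ M5, π * f ∈ M2
  πy : ∀ f ∈ M6, π * (t * (b * f)) ∈ M0
  ππ : ∀ f ∈ M5, π * (π * f) ∈ M0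
  k : F
  k5 : k ∈ M5
  k1 : ∃ u ∈ M5, b * k - π * u ∈ M0
  k2 : ∀ v ∈ M6, k - a * v ∉ M2

attribute [instance] EData.inst

/-- two abelian groups with some additive maps -/
structure GBase where
  U : Type
  V : Type
  [instU : AddCommGroup U]
  [instV : AddCommGroup V]
  b : U →+ U
  t : U →+ U
  π : U →+ U
  a : V →+ V
  w : V →+ V
  c : U →+ V
  y : V →+ U

attribute [instance] GBase.instU GBase.instV

/-- the pair `(ρ, σ)` commutes with all the maps -/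
def GBase.Compat (D : GBase) (ρ : D.U →+ D.U) (σ : D.V →+ D.V) : Prop :=
  (∀ u, ρ (D.b u) = D.b (ρ u)) ∧ (∀ u, ρ (D.t u) = D.t (ρ u)) ∧ (∀ u, ρ (D.π u) = D.π (ρ u)) ∧
  (∀ v, σ (D.a v) = D.a (σ v)) ∧ (∀ v, σ (D.w v) = D.w (σ v)) ∧
  (∀ u, σ (D.c u) = D.c (ρ u)) ∧ (∀ v, ρ (D.y v) = D.y (σ v))

/-- additive version of `TData`: uniserial over the ring of all compatible pairs -/
structure GData extends GBase where
  uU : ∀ u u' : U, ∃ (ρ : U →+ U) (σ : V →+ V), toGBase.Compat ρ σ ∧ (u' = ρ u ∨ u = ρ u')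
  uV : ∀ v v' : V, ∃ (ρ : U →+ U) (σ : V →+ V), toGBase.Compat ρ σ ∧ (v' = σ v ∨ v = σ v')
  b_inj : Function.Injective b
  b_ns : ¬ Function.Surjective b
  t_surj : Function.Surjective t
  t_ni : ¬ Function.Injective t
  a_inj : Function.Injective a
  a_ns : ¬ Function.Surjective a
  w_surj : Function.Surjective w
  w_ni : ¬ Function.Injective w
  tb : ∀ u : U, t (b u) = y (c u)
  ya : ∀ v : V, y (a v) = 0
  wc : ∀ u : U, w (c u) = 0
  wa : ∀ v : V, w (a v) = 0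
  πb : ∀ u : U, π (b u) = b (π u)
  πt : ∀ u : U, π (t u) = t (π u)
  cπ : ∀ u : U, c (π u) = 0
  πy : ∀ v : V, π (y v) = 0
  ππ : ∀ u : U, π (π u) = 0
  k : U
  k1 : ∃ u : U, b k = π u
  k2 : ∀ v : V, c k ≠ a v

/-- the module theoretic input: two uniserial modules `U`, `V` over `R` with some maps -/
structure TData (R U V : Type) [Ring R] [AddCommGroup U] [Module R U]
    [AddCommGroup V] [Module R V] where
  uU : ∀ u u' : U, (∃ r : R, u = r • u') ∨ (∃ r : R, u' = r • u)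
  uV : ∀ v v' : V, (∃ r : R, v = r • v') ∨ (∃ r : R, v' = r • v)
  ε : R
  central : ∀ r : R, ε * r = r * ε
  εV : ∀ v : V, ε • v = 0
  εεU : ∀ u : U, ε • ε • u = 0
  b : U →ₗ[R] U
  t : U →ₗ[R] U
  a : V →ₗ[R] V
  w : V →ₗ[R] V
  c : U →ₗ[R] V
  y : V →ₗ[R] U
  b_inj : Function.Injective b
  b_ns : ¬ Function.Surjective b
  t_surj : Function.Surjective t
  t_ni : ¬ Function.Injective t
  a_inj : Function.Injective a
  a_ns : ¬ Function.Surjective a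
  w_surj : Function.Surjective w
  w_ni : ¬ Function.Injective w
  tb : ∀ u : U, t (b u) = y (c u)
  ya : ∀ v : V, y (a v) = 0
  wc : ∀ u : U, w (c u) = 0
  wa : ∀ v : V, w (a v) = 0
  k : U
  k1 : ∃ u : U, b k = ε • u
  k2 : ∀ v : V, c k ≠ a v

/-- the injective endomorphism `(u,v) ↦ (b u, c u + a v)` of `U × V` -/
def phi {R U V : Type} [Ring R] [AddCommGroup U] [Module R U]
    [AddCommGroup V] [Module R V] (D : TData R U V) : U × V →ₗ[R] U × V :=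
  LinearMap.prod (D.b.comp (LinearMap.fst R U V))
    (D.c.comp (LinearMap.fst R U V) + D.a.comp (LinearMap.snd R U V))

/-- the shift-type endomorphism `single n x ↦ single (n+1) (f x)` of `ℕ →₀ W` -/
noncomputable def Sh {R W : Type} [Ring R] [AddCommGroup W] [Module R W] (f : W →ₗ[R] W) :
    (ℕ →₀ W) →ₗ[R] (ℕ →₀ W) :=
  Finsupp.lsum ℕ (fun n => (Finsupp.lsingle (n + 1)).comp f)

/-- `x` is an element of the range of `1 - Sh f` -/
noncomputable def Rg {R W : Type} [Ring R] [AddCommGroup W] [Module R W] (f : W →ₗ[R] W) :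
    Submodule R (ℕ →₀ W) :=
  LinearMap.range (LinearMap.id - Sh f)

end Pool.Agent.H440S
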