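import Pool.Agent.H440S.Defs

set_option autoImplicit false

namespace Pool.Agent.H440S



theorem add_inj {R V W : Type} [Ring R] [AddCommGroup V] [Module R V] [AddCommGroup W] [Module R W]
    (hV : ∀ u u' : V, (∃ r : R, u = r • u') ∨ (∃ r : R, u' = r • u))
    (f g : V →ₗ[R] W) (hf : Function.Injective f) (hg : ¬ Function.Injective g) :
    Function.Injective (f + g) := by
  rw [injective_iff_map_eq_zero] at hf hg ⊢
  push Not at hg
  obtain ⟨z, hz, hz0⟩ := hg
  intro x hx
  rw [LinearMap.add_apply] at hx
  rcases hV x z with ⟨r, hr⟩ | ⟨r, hr⟩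
  · have h1 : g x = 0 := by rw [hr, map_smul, hz, smul_zero]
    rw [h1, add_zero] at hx
    exact hf x hx
  · exfalso
    apply hz0
    apply hf
    have h2 : f z + g z = 0 := by
      rw [hr, map_smul, map_smul, ← smul_add, hx, smul_zero]
    rw [hz, add_zero] at h2
    exact h2

end Pool.Agent.H440S
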