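import Pool.Agent.H440S.Defs

set_option autoImplicit false

namespace Pool.Agent.H440S



theorem add_surj {R V W : Type} [Ring R] [AddCommGroup V] [Module R V] [AddCommGroup W] [Module R W]
    (hW : ∀ u u' : W, (∃ r : R, u = r • u') ∨ (∃ r : R, u' = r • u))
    (f g : V →ₗ[R] W) (hf : Function.Surjective f) (hg : ¬ Function.Surjective g) :
    Function.Surjective (f + g) := by
  by_contra hh
  unfold Function.Surjective at hg hh
  push Not at hg hh
  obtain ⟨w0, hw0⟩ := hg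
  obtain ⟨w1, hw1⟩ := hh
  have hex : ∃ w2, (∀ x, g x ≠ w2) ∧ (∀ x, (f + g) x ≠ w2) := by
    rcases hW w0 w1 with ⟨r, hr⟩ | ⟨r, hr⟩
    · refine ⟨w1, ?_, hw1⟩
      intro x hx
      apply hw0 (r • x)
      rw [map_smul, hx, hr]
    · refine ⟨w0, hw0, ?_⟩
      intro x hx
      apply hw1 (r • x)
      rw [map_smul, hx, hr]
  obtain ⟨w2, h1, h2⟩ := hex
  obtain ⟨x, hx⟩ := hf w2
  have e : w2 = (f + g) x - g x := by
    rw [LinearMap.add_apply, hx]
    abel
  rcases hW ((f + g) x) (g x) with ⟨r, hr⟩ | ⟨r, hr⟩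
  · apply h1 (r • x - x)
    rw [map_sub, map_smul, ← hr, e]
  · apply h2 (x - r • x)
    rw [map_sub, map_smul, ← hr, e]

end Pool.Agent.H440S
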