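import Pool.Agent.H440S.Defs

set_option autoImplicit false

namespace Pool.Agent.H440S



theorem aff_mem (D : VData) (g : BG) (c d : ℚ) (h : d = g.s + 2 ^ g.i * c) (f : D.F) :
    D.aff g * f ∈ D.M d ↔ f ∈ D.M c := by
  subst h
  exact D.haff g c f

end Pool.Agent.H440S
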