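import Pool.Agent.H440S.Defs

set_option autoImplicit false

namespace Pool.Agent.H440S



theorem affv (D : VData) (v c : ℚ) : D.aff ⟨v, 0⟩ ∈ D.M c ↔ v < c := by
  have h1 : D.aff ⟨v, 0⟩ ∈ D.M c ↔ (1 : D.F) ∈ D.M (c - v) := by
    have h := D.haff ⟨v, 0⟩ (c - v) 1
    have e : (v + (2 : ℚ) ^ (0 : ℤ) * (c - v)) = c := by
      rw [zpow_zero]; ring
    rw [mul_one] at h
    change D.aff ⟨v, 0⟩ ∈ D.M (v + (2 : ℚ) ^ (0 : ℤ) * (c - v)) ↔ _ at h
    rwa [e] at h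
  rw [h1]
  constructor
  · intro h
    by_contra hlt
    exact D.one_not (D.mono (c - v) 0 (by linarith) h)
  · intro h
    exact D.one_mem (c - v) (by linarith)

end Pool.Agent.H440S
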