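import Pool.Agent.H440S.Defs
import Pool.Agent.H440S.P_affv

set_option autoImplicit false

namespace Pool.Agent.H440S



theorem exE (D : VData) (S : BG) (q : ℚ) (hq : S.s + 2 ^ S.i * q < q) :
    ∃ e : D.F, e + D.aff S⁻¹ * e = 1 := by
  by_cases h : 1 + D.aff S⁻¹ = 0
  · exfalso
    have h1 : D.aff S⁻¹ = -1 := (neg_eq_of_add_eq_zero_right h).symm
    have h2 : D.aff ⟨S.s + 2 ^ S.i * q, 0⟩ ∈ D.M q := (affv D _ _).2 hq
    have h3 : D.aff ⟨S.s + 2 ^ S.i * q, 0⟩ ∉ D.M (S.s + 2 ^ S.i * q) := fun h =>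
      lt_irrefl _ ((affv D _ _).1 h)
    apply h3
    have h4 := (D.haff S q (D.aff S⁻¹ * D.aff ⟨S.s + 2 ^ S.i * q, 0⟩)).2 (by
      rw [h1, neg_mul, one_mul]
      exact (D.M q).neg_mem h2)
    rwa [← mul_assoc, ← map_mul, mul_inv_cancel, map_one, one_mul] at h4
  · refine ⟨(1 + D.aff S⁻¹)⁻¹, ?_⟩
    have h1 : (1 + D.aff S⁻¹) * (1 + D.aff S⁻¹)⁻¹ = 1 := mul_inv_cancel₀ h
    rw [add_mul, one_mul] at h1
    exact h1

end Pool.Agent.H440S
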