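import Pool.Agent.H440S.Defs

set_option autoImplicit false

namespace Pool.Agent.H440S



theorem rmul (D : VData) (f f' : D.F) (hf : f ≠ 0)
    (h : ∀ (h : D.F) (c : ℚ), h * f ∈ D.M c → h * f' ∈ D.M c) (g : D.F) (c : ℚ)
    (hg : g ∈ D.M c) : g * (f⁻¹ * f') ∈ D.M c := by
  have h1 := h (g * f⁻¹) c (by rw [mul_assoc, inv_mul_cancel₀ hf, mul_one]; exact hg)
  rwa [mul_assoc] at h1

end Pool.Agent.H440S
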