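import Pool.Agent.H440S.Defs
import Pool.Agent.H440S.P_affv
import Pool.Agent.H440S.P_rmul

set_option autoImplicit false

namespace Pool.Agent.H440S



theorem lemE (D : VData) (S : BG) (e : D.F) (he : e + D.aff S⁻¹ * e = 1) (q : ℚ)
    (hq : S.s + 2 ^ S.i * q < q) (f : D.F) (hf : f ∈ D.M q) :
    e * f ∈ D.M (S.s + 2 ^ S.i * q) := by
  obtain ⟨v, hv⟩ : ∃ v, v = S.s + 2 ^ S.i * q := ⟨_, rfl⟩
  have hstar : ∀ h : D.F, D.aff S⁻¹ * h ∈ D.M q ↔ h ∈ D.M v := by
    intro h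
    have h1 := D.haff S q (D.aff S⁻¹ * h)
    rw [← mul_assoc, ← map_mul, mul_inv_cancel, map_one, one_mul, ← hv] at h1
    exact h1.symm
  rw [← hv] at hq ⊢
  have hfh : f = e * f + D.aff S⁻¹ * (e * f) := by
    rw [← mul_assoc, ← add_mul, he, one_mul]
  obtain ⟨h, hh⟩ : ∃ h, h = e * f := ⟨_, rfl⟩
  rw [← hh] at hfh ⊢
  by_contra hcon
  have h1 : D.aff S⁻¹ * h ∉ D.M q := fun h2 => hcon ((hstar h).mp h2)
  have h2 : h ∉ D.M q := by
    intro h3
    apply h1
    have h4 : D.aff S⁻¹ * h = f - h := by rw [hfh, add_sub_cancel_left]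
    rw [h4]
    exact (D.M q).sub_mem hf h3
  have hne : h ≠ 0 := by
    intro h0
    apply h2
    rw [h0]
    exact (D.M q).zero_mem
  obtain ⟨h', hh'⟩ : ∃ h', h' = D.aff ⟨v, 0⟩ := ⟨_, rfl⟩
  have h'q : h' ∈ D.M q := by rw [hh', affv]; exact hq
  have h'v : h' ∉ D.M v := by
    rw [hh', affv]
    exact lt_irrefl v
  rcases D.tot h h' with H | H
  · have h3 := rmul D h h' hne H f q hf
    have h4 : f * (h⁻¹ * h') = h' + D.aff S⁻¹ * h' := by
      conv_lhs => rw [hfh]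
      rw [add_mul, ← mul_assoc, mul_inv_cancel₀ hne, one_mul]
      congr 1
      rw [mul_assoc, ← mul_assoc h, mul_inv_cancel₀ hne, one_mul]
    rw [h4] at h3
    have h5 : D.aff S⁻¹ * h' ∈ D.M q := by
      have := (D.M q).sub_mem h3 h'q
      rwa [add_sub_cancel_left] at this
    exact h'v ((hstar h').mp h5)
  · have h3 := H 1 q
    rw [one_mul, one_mul] at h3
    exact h2 (h3 h'q)

end Pool.Agent.H440S
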