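import Pool.Agent.H440S.Defs
import Pool.Agent.H440S.P_affv
import Pool.Agent.H440S.P_rmul

set_option autoImplicit false

namespace Pool.Agent.H440S



theorem lemE2 (D : VData) (S : BG) (e : D.F) (he : e + D.aff S⁻¹ * e = 1) (q : ℚ)
    (hq : q < S.s + 2 ^ S.i * q) (f : D.F) (hf : f ∈ D.M q) :
    (1 - e) * f ∈ D.M (S⁻¹.s + 2 ^ S⁻¹.i * q) := by
  have hstar : ∀ h : D.F, D.aff S⁻¹ * h ∈ D.M q ↔ h ∈ D.M (S.s + 2 ^ S.i * q) := by
    intro h
    have h1 := D.haff S q (D.aff S⁻¹ * h)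
    rw [← mul_assoc, ← map_mul, mul_inv_cancel, map_one, one_mul] at h1
    exact h1.symm
  have hef : e * f ∈ D.M q := by
    by_contra hh
    have hfe : f = e * f + D.aff S⁻¹ * (e * f) := by
      rw [← mul_assoc, ← add_mul, he, one_mul]
    have hh0 : e * f ≠ 0 := by
      intro h0
      rw [h0] at hh
      exact hh (D.M q).zero_mem
    have h1 : D.aff ⟨q, 0⟩ ∉ D.M q := by
      rw [affv]; exact lt_irrefl q
    have h2 : D.aff ⟨q, 0⟩ ∈ D.M (S.s + 2 ^ S.i * q) := by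
      rw [affv]; exact hq
    have h3 := (hstar _).2 h2
    rcases D.tot (e * f) (D.aff ⟨q, 0⟩) with hA | hB
    · have h4 := rmul D (e * f) (D.aff ⟨q, 0⟩) hh0 hA f q hf
      have h5 : f * ((e * f)⁻¹ * D.aff ⟨q, 0⟩) = D.aff ⟨q, 0⟩ + D.aff S⁻¹ * D.aff ⟨q, 0⟩ := by
        have h51 : ∀ z w : D.F, z ≠ 0 → f = z + D.aff S⁻¹ * z → f * (z⁻¹ * w) = w + D.aff S⁻¹ * w := by
          intro z w hz hfz
          rw [hfz, add_mul, mul_inv_cancel_left₀ hz, mul_assoc, mul_inv_cancel_left₀ hz]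
        exact h51 _ _ hh0 hfe
      rw [h5] at h4
      apply h1
      have h6 := (D.M q).sub_mem h4 h3
      rwa [add_sub_cancel_right] at h6
    · have h4 := hB (D.aff S⁻¹) q h3
      apply hh
      have h6 := (D.M q).sub_mem hf h4
      have h7 : f - D.aff S⁻¹ * (e * f) = e * f := by
        rw [sub_eq_iff_eq_add]; exact hfe
      rwa [h7] at h6
  have h8 : (1 - e) * f = D.aff S⁻¹ * (e * f) := by
    have : 1 - e = D.aff S⁻¹ * e := by rw [← he]; abel
    rw [this, mul_assoc]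
  rw [h8, D.haff]
  exact hef

end Pool.Agent.H440S
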