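import Pool.Agent.H440S.Defs
import Pool.Agent.H440S.P_exE
import Pool.Agent.H440S.P_lemE
import Pool.Agent.H440S.P_lemE2

set_option autoImplicit false

namespace Pool.Agent.H440S



theorem b_est (D : VData) : ∃ b : D.F,
    (∀ f ∈ D.M (7 / 2), b * f - D.aff ⟨0, -3⟩ * f ∈ D.M 0) ∧
    (∀ f ∈ D.M 7, b * f - D.aff ⟨7 / 2, -3⟩ * f ∈ D.M 4) := by
  have h3 : (2 : ℚ) ^ (-3 : ℤ) = 1 / 8 := by norm_num
  have h7 : (2 : ℚ) ^ (7 : ℤ) = 128 := by norm_num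
  have h7' : (2 : ℚ) ^ (-7 : ℤ) = 1 / 128 := by norm_num
  have hS1 : (⟨-480, 7⟩ : BG).s + 2 ^ (⟨-480, 7⟩ : BG).i * (7 / 2) < (7 / 2 : ℚ) := by
    change (-480 : ℚ) + 2 ^ (7 : ℤ) * (7 / 2) < 7 / 2
    rw [h7]; norm_num
  have hS2 : (7 : ℚ) < (⟨-480, 7⟩ : BG).s + 2 ^ (⟨-480, 7⟩ : BG).i * 7 := by
    change (7 : ℚ) < (-480 : ℚ) + 2 ^ (7 : ℤ) * 7
    rw [h7]; norm_num
  obtain ⟨e, he⟩ := exE D ⟨-480, 7⟩ (7 / 2) hS1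
  have haff0 : ∀ (c d : ℚ) (f : D.F), f ∈ D.M c → 1 / 8 * c ≤ d → D.aff ⟨0, -3⟩ * f ∈ D.M d := by
    intro c d f hf hcd
    have h1 := (D.haff ⟨0, -3⟩ c f).2 hf
    refine D.mono _ _ ?_ h1
    change (0 : ℚ) + 2 ^ (-3 : ℤ) * c ≤ d
    rw [h3]; linarith
  have haff1 : ∀ (c d : ℚ) (f : D.F), f ∈ D.M c → 7 / 2 + 1 / 8 * c ≤ d →
      D.aff ⟨7 / 2, -3⟩ * f ∈ D.M d := by
    intro c d f hf hcd
    have h1 := (D.haff ⟨7 / 2, -3⟩ c f).2 hf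
    refine D.mono _ _ ?_ h1
    change (7 / 2 : ℚ) + 2 ^ (-3 : ℤ) * c ≤ d
    rw [h3]; linarith
  refine ⟨D.aff ⟨0, -3⟩ * (1 - e) + D.aff ⟨7 / 2, -3⟩ * e, fun f hf => ?_, fun f hf => ?_⟩
  · have h1 := lemE D ⟨-480, 7⟩ e he (7 / 2) hS1 f hf
    have h2 : e * f ∈ D.M (-32) := by
      refine D.mono _ _ ?_ h1
      change (-480 : ℚ) + 2 ^ (7 : ℤ) * (7 / 2) ≤ -32
      rw [h7]; norm_num
    have h4 : (D.aff ⟨0, -3⟩ * (1 - e) + D.aff ⟨7 / 2, -3⟩ * e) * f - D.aff ⟨0, -3⟩ * f =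
        D.aff ⟨7 / 2, -3⟩ * (e * f) - D.aff ⟨0, -3⟩ * (e * f) := by
      simp only [add_mul, mul_sub, sub_mul, mul_one, mul_assoc]
      abel
    rw [h4]
    exact sub_mem (haff1 _ _ _ h2 (by norm_num)) (haff0 _ _ _ h2 (by norm_num))
  · have h1 := lemE2 D ⟨-480, 7⟩ e he 7 hS2 f hf
    have h2 : (1 - e) * f ∈ D.M 4 := by
      refine D.mono _ _ ?_ h1
      change (-(2 ^ (-(7 : ℤ)) * (-480 : ℚ))) + 2 ^ (-(7 : ℤ)) * (7 : ℚ) ≤ 4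
      rw [h7']; norm_num
    have h4 : (D.aff ⟨0, -3⟩ * (1 - e) + D.aff ⟨7 / 2, -3⟩ * e) * f - D.aff ⟨7 / 2, -3⟩ * f =
        D.aff ⟨0, -3⟩ * ((1 - e) * f) - D.aff ⟨7 / 2, -3⟩ * ((1 - e) * f) := by
      simp only [add_mul, mul_sub, sub_mul, mul_one, one_mul, mul_assoc]
      abel
    rw [h4]
    exact sub_mem (haff0 _ _ _ h2 (by norm_num)) (haff1 _ _ _ h2 (by norm_num))

end Pool.Agent.H440S
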