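import Pool.Agent.H440S.Defs
import Pool.Agent.H440S.P_affv

set_option autoImplicit false

namespace Pool.Agent.H440S



theorem b_inj0 (D : VData) (b : D.F)
    (hb1 : ∀ f ∈ D.M (7 / 2), b * f - D.aff ⟨0, -3⟩ * f ∈ D.M 0)
    (f : D.F) (hf : b * f ∈ D.M 0) : f ∈ D.M 0 := by
  have claim : ∀ g ∈ D.M (7 / 2), b * g ∈ D.M 0 → g ∈ D.M 0 := by
    intro g hg hbg
    have h1 : D.aff ⟨0, -3⟩ * g ∈ D.M 0 := by
      have h2 := (D.M 0).sub_mem hbg (hb1 g hg)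
      have h3 : b * g - (b * g - D.aff ⟨0, -3⟩ * g) = D.aff ⟨0, -3⟩ * g := by abel
      rwa [h3] at h2
    have h4 := (D.haff ⟨0, -3⟩ 0 g)
    have h5 : ((⟨0, -3⟩ : BG).s + 2 ^ (⟨0, -3⟩ : BG).i * (0 : ℚ)) = 0 := by
      simp
    rw [h5] at h4
    exact h4.mp h1
  have m1 : D.aff ⟨3, 0⟩ ∈ D.M (7 / 2) := (affv D 3 (7 / 2)).mpr (by norm_num)
  have m2 : D.aff ⟨3, 0⟩ ∉ D.M 0 := fun h => by
    have := (affv D 3 0).mp h
    norm_num at this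
  rcases D.tot f (D.aff ⟨3, 0⟩) with hA | hB
  · exact absurd (claim _ m1 (hA b 0 hf)) m2
  · have h6 := hB 1 (7 / 2) (by rw [one_mul]; exact m1)
    rw [one_mul] at h6
    exact claim f h6 hf

end Pool.Agent.H440S
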