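import Pool.Agent.H440S.Defs
import Pool.Agent.H440S.P_aff_mem

set_option autoImplicit false

namespace Pool.Agent.H440S



theorem b_maps (D : VData) (b : D.F)
    (hb1 : ∀ f ∈ D.M (7 / 2), b * f - D.aff ⟨0, -3⟩ * f ∈ D.M 0)
    (hb2 : ∀ f ∈ D.M 7, b * f - D.aff ⟨7 / 2, -3⟩ * f ∈ D.M 4) :
    (∀ c : ℚ, 0 ≤ c → c ≤ 7 / 2 → ∀ f ∈ D.M c, b * f ∈ D.M (c / 8)) ∧
    (∀ c : ℚ, 4 ≤ c → c ≤ 7 → ∀ f ∈ D.M c, b * f ∈ D.M (7 / 2 + c / 8)) := by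
  have h8 : (2 : ℚ) ^ (-3 : ℤ) = 1 / 8 := by norm_num
  constructor
  · intro c hc0 hc f hf
    have h1 := hb1 f (D.mono c (7 / 2) hc hf)
    have h2 : D.aff ⟨0, -3⟩ * f ∈ D.M (c / 8) := by
      refine (aff_mem D ⟨0, -3⟩ c (c / 8) ?_ f).2 hf
      show c / 8 = 0 + 2 ^ (-3 : ℤ) * c
      rw [h8]; ring
    have h3 := (D.M (c / 8)).add_mem (D.mono 0 (c / 8) (by positivity) h1) h2
    rwa [sub_add_cancel] at h3
  · intro c hc4 hc f hf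
    have h1 := hb2 f (D.mono c 7 hc hf)
    have h2 : D.aff ⟨7 / 2, -3⟩ * f ∈ D.M (7 / 2 + c / 8) := by
      refine (aff_mem D ⟨7 / 2, -3⟩ c (7 / 2 + c / 8) ?_ f).2 hf
      show 7 / 2 + c / 8 = 7 / 2 + 2 ^ (-3 : ℤ) * c
      rw [h8]; ring
    have h3 := (D.M (7 / 2 + c / 8)).add_mem (D.mono 4 (7 / 2 + c / 8) (by linarith) h1) h2
    rwa [sub_add_cancel] at h3

end Pool.Agent.H440S
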