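import Pool.Agent.H440S.Defs
import Pool.Agent.H440S.P_aff_mem

set_option autoImplicit false

namespace Pool.Agent.H440S



theorem t_maps (D : VData) (t : D.F)
    (ht1 : ∀ f ∈ D.M 1, t * f - D.aff ⟨-1, 1⟩ * f ∈ D.M 0)
    (ht2 : ∀ f ∈ D.M 6, t * f - D.aff ⟨-5, 1⟩ * f ∈ D.M 4) :
    (∀ c : ℚ, c ≤ 1 → ∀ f ∈ D.M c, t * f ∈ D.M (max 0 (2 * c - 1))) ∧
    (∀ c : ℚ, c ≤ 6 → ∀ f ∈ D.M c, t * f ∈ D.M (max 4 (2 * c - 5))) := by
  constructor
  · intro c hc f hf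
    have h1 := ht1 f (D.mono c 1 hc hf)
    have h2 : D.aff ⟨-1, 1⟩ * f ∈ D.M (2 * c - 1) := by
      rw [aff_mem D ⟨-1, 1⟩ c (2 * c - 1) (by simp; ring) f]
      exact hf
    have h3 := D.mono 0 (max 0 (2 * c - 1)) (le_max_left _ _) h1
    have h4 := D.mono (2 * c - 1) (max 0 (2 * c - 1)) (le_max_right _ _) h2
    have h5 := (D.M (max 0 (2 * c - 1))).add_mem h3 h4
    rwa [sub_add_cancel] at h5
  · intro c hc f hf
    have h1 := ht2 f (D.mono c 6 hc hf)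
    have h2 : D.aff ⟨-5, 1⟩ * f ∈ D.M (2 * c - 5) := by
      rw [aff_mem D ⟨-5, 1⟩ c (2 * c - 5) (by simp; ring) f]
      exact hf
    have h3 := D.mono 4 (max 4 (2 * c - 5)) (le_max_left _ _) h1
    have h4 := D.mono (2 * c - 5) (max 4 (2 * c - 5)) (le_max_right _ _) h2
    have h5 := (D.M (max 4 (2 * c - 5))).add_mem h3 h4
    rwa [sub_add_cancel] at h5

end Pool.Agent.H440S
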