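import Pool.Agent.H440S.Defs
import Pool.Agent.H440S.P_b_maps
import Pool.Agent.H440S.P_t_maps

set_option autoImplicit false

namespace Pool.Agent.H440S



theorem bt_maps (D : VData) (b t : D.F)
    (hb1 : ∀ f ∈ D.M (7 / 2), b * f - D.aff ⟨0, -3⟩ * f ∈ D.M 0)
    (hb2 : ∀ f ∈ D.M 7, b * f - D.aff ⟨7 / 2, -3⟩ * f ∈ D.M 4)
    (ht1 : ∀ f ∈ D.M 1, t * f - D.aff ⟨-1, 1⟩ * f ∈ D.M 0)
    (ht2 : ∀ f ∈ D.M 6, t * f - D.aff ⟨-5, 1⟩ * f ∈ D.M 4) :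
    (∀ f ∈ D.M 0, b * f ∈ D.M 0) ∧ (∀ f ∈ D.M 5, b * f ∈ D.M 5) ∧
    (∀ f ∈ D.M 0, t * f ∈ D.M 0) ∧ (∀ f ∈ D.M 5, t * f ∈ D.M 5) ∧
    (∀ f ∈ D.M 2, t * (b * f) ∈ D.M 0) ∧ (∀ f ∈ D.M 6, t * (b * f) ∈ D.M 4) ∧
    (∀ f ∈ D.M 3, t * (b * f) ∈ D.M 0) ∧ (∀ f ∈ D.M 5, b * f ∈ D.M (33 / 8)) := by
  obtain ⟨B1, B2⟩ := b_maps D b hb1 hb2
  obtain ⟨T1, T2⟩ := t_maps D t ht1 ht2
  refine ⟨?_, ?_, ?_, ?_, ?_, ?_, ?_, ?_⟩
  · intro f hf
    have := B1 0 (by norm_num) (by norm_num) f hf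
    simpa using this
  · intro f hf
    have := B2 5 (by norm_num) (by norm_num) f hf
    exact D.mono _ _ (by norm_num) this
  · intro f hf
    have := T1 0 (by norm_num) f hf
    exact D.mono _ _ (by norm_num) this
  · intro f hf
    have := T2 5 (by norm_num) f hf
    exact D.mono _ _ (by norm_num) this
  · intro f hf
    have h1 := B1 2 (by norm_num) (by norm_num) f hf
    have h2 := T1 _ (by norm_num) _ h1
    exact D.mono _ _ (by norm_num) h2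
  · intro f hf
    have h1 := B2 6 (by norm_num) (by norm_num) f hf
    have h2 := T2 _ (by norm_num) _ h1
    exact D.mono _ _ (by norm_num) h2
  · intro f hf
    have h1 := B1 3 (by norm_num) (by norm_num) f hf
    have h2 := T1 _ (by norm_num) _ h1
    exact D.mono _ _ (by norm_num) h2
  · intro f hf
    have h1 := B2 5 (by norm_num) (by norm_num) f hf
    exact D.mono _ _ (by norm_num) h1

end Pool.Agent.H440S
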