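import Pool.Agent.H440S.Defs

set_option autoImplicit false

namespace Pool.Agent.H440S



theorem single_shift {R W : Type} [Ring R] [AddCommGroup W] [Module R W] (f : W →ₗ[R] W)
    (n : ℕ) (x : W) : Finsupp.single n x - Finsupp.single (n + 1) (f x) ∈ Rg f := by
  refine ⟨Finsupp.single n x, ?_⟩
  simp [Sh]

end Pool.Agent.H440S
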