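import Pool.Agent.H440S.Defs
import Pool.Agent.H440S.P_single_shift

set_option autoImplicit false

namespace Pool.Agent.H440S



theorem single_shift_iter {R W : Type} [Ring R] [AddCommGroup W] [Module R W] (f : W →ₗ[R] W)
    (n k : ℕ) (x : W) : ∃ x' : W, Finsupp.single n x - Finsupp.single (n + k) x' ∈ Rg f := by
  induction k with
  | zero => exact ⟨x, by simp⟩
  | succ k ih =>
    obtain ⟨x', hx'⟩ := ih
    refine ⟨f x', ?_⟩
    have h := (Rg f).add_mem hx' (single_shift f (n + k) x')
    rw [sub_add_sub_cancel] at h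
    exact h

theorem exists_single {R W : Type} [Ring R] [AddCommGroup W] [Module R W] (f : W →ₗ[R] W)
    (m : ℕ →₀ W) : ∃ (n : ℕ) (x : W), m - Finsupp.single n x ∈ Rg f := by
  induction m using Finsupp.induction_linear with
  | zero => exact ⟨0, 0, by simp⟩
  | add m1 m2 h1 h2 =>
    obtain ⟨n1, x1, h1⟩ := h1
    obtain ⟨n2, x2, h2⟩ := h2
    obtain ⟨y1, hy1⟩ := single_shift_iter f n1 n2 x1
    obtain ⟨y2, hy2⟩ := single_shift_iter f n2 n1 x2
    refine ⟨n1 + n2, y1 + y2, ?_⟩
    have h3 := (Rg f).add_mem ((Rg f).add_mem h1 hy1) ((Rg f).add_mem h2 hy2)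
    rw [sub_add_sub_cancel, sub_add_sub_cancel, add_comm n2 n1] at h3
    rw [Finsupp.single_add]
    convert h3 using 1
    abel
  | single n x => exact ⟨n, x, by simp⟩

end Pool.Agent.H440S
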