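import Pool.Agent.H440S.Defs

set_option autoImplicit false

namespace Pool.Agent.H440S



theorem retract {R W : Type} [Ring R] [AddCommGroup W] [Module R W] (f ρ : W →ₗ[R] W)
    (h : ∀ x, ρ (f (f x)) = f x) :
    ∃ T : (ℕ →₀ W) →ₗ[R] (ℕ →₀ W), ∀ m, T (m - Sh f m) = m := by
  classical
  let pw : ℕ → (W →ₗ[R] W) := fun k => Nat.rec LinearMap.id (fun _ g => g.comp ρ) k
  have pw0 : pw 0 = LinearMap.id := rfl
  have pws : ∀ k, pw (k + 1) = (pw k).comp ρ := fun k => rfl
  let A : ℕ → (W →ₗ[R] (ℕ →₀ W)) := fun n =>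
    (Finsupp.lsingle n).comp (LinearMap.id - ρ.comp f) -
      ∑ m ∈ Finset.range n, (Finsupp.lsingle m).comp ((pw (n - m + 1)).comp f)
  let T : (ℕ →₀ W) →ₗ[R] (ℕ →₀ W) := Finsupp.lsum ℕ A
  have hT : ∀ n x, T (Finsupp.single n x) = Finsupp.single n (x - ρ (f x)) -
      ∑ m ∈ Finset.range n, Finsupp.single m (pw (n - m + 1) (f x)) := by
    intro n x
    simp only [T, A, Finsupp.lsum_single, LinearMap.sub_apply, LinearMap.comp_apply,
      Finsupp.lsingle_apply, LinearMap.id_apply, LinearMap.sum_apply]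
  have hSh : ∀ n x, Sh f (Finsupp.single n x) = Finsupp.single (n + 1) (f x) := by
    intro n x
    simp only [Sh, Finsupp.lsum_single, LinearMap.comp_apply, Finsupp.lsingle_apply]
  refine ⟨T, ?_⟩
  have key : ∀ n x, T (Finsupp.single n x - Sh f (Finsupp.single n x)) = Finsupp.single n x := by
    intro n x
    rw [map_sub, hSh, hT, hT, h, sub_self, Finsupp.single_zero, zero_sub, sub_neg_eq_add,
      Finset.sum_range_succ]
    have e1 : ∀ m ∈ Finset.range n, Finsupp.single m (pw (n + 1 - m + 1) (f (f x))) =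
        Finsupp.single m (pw (n - m + 1) (f x)) := by
      intro m hm
      have hm' : m < n := Finset.mem_range.mp hm
      have : n + 1 - m + 1 = (n - m + 1) + 1 := by omega
      rw [this, pws (n - m + 1), LinearMap.comp_apply, h]
    rw [Finset.sum_congr rfl e1]
    have e2 : pw (n + 1 - n + 1) (f (f x)) = ρ (f x) := by
      have : n + 1 - n + 1 = 1 + 1 := by omega
      have p1 : pw 1 = ρ := by rw [show (1:ℕ) = 0 + 1 from rfl, pws 0, pw0, LinearMap.id_comp]
      rw [this, pws 1, LinearMap.comp_apply, h, p1]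
    rw [e2, Finsupp.single_sub]
    abel
  have hl : T.comp (LinearMap.id - Sh f) = LinearMap.id := by
    apply Finsupp.lhom_ext
    intro n x
    simpa using key n x
  intro m
  have := LinearMap.congr_fun hl m
  simpa using this

end Pool.Agent.H440S
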