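import Pool.Agent.H440S.Defs

set_option autoImplicit false

namespace Pool.Agent.H440S



theorem smR_single {R W : Type} [Ring R] [AddCommGroup W] [Module R W] (f : W →ₗ[R] W)
    (n : ℕ) (x : W) : Sh f (Finsupp.single n x) = Finsupp.single (n + 1) (f x) := by
  simp [Sh]

theorem smR_Sh {R W : Type} [Ring R] [AddCommGroup W] [Module R W] (f : W →ₗ[R] W)
    (m : ℕ →₀ W) : (Sh f m) 0 = 0 ∧ ∀ k, (Sh f m) (k + 1) = f (m k) := by
  induction m using Finsupp.induction_linear with
  | zero => simp
  | add g h hg hh =>
    have e : Sh f (g + h) = Sh f g + Sh f h := map_add (Sh f) g h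
    refine ⟨?_, fun k => ?_⟩
    · rw [e, Finsupp.add_apply, hg.1, hh.1, add_zero]
    · rw [e, Finsupp.add_apply, hg.2, hh.2, Finsupp.add_apply, map_add f]
  | single a b =>
    rw [smR_single]
    refine ⟨by simp, fun k => ?_⟩
    by_cases hk : a = k
    · subst hk; simp
    · rw [Finsupp.single_eq_of_ne (by omega), Finsupp.single_eq_of_ne (by omega), map_zero]

theorem single_mem_Rg {R W : Type} [Ring R] [AddCommGroup W] [Module R W] (f : W →ₗ[R] W)
    (hf : Function.Injective f) (n : ℕ) (x : W) (h : Finsupp.single n x ∈ Rg f) : x = 0 := by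
  obtain ⟨m, hm⟩ := h
  by_contra hx
  have hm' : ∀ k, m k - (Sh f m) k = Finsupp.single n x k := by
    intro k
    rw [← hm]
    simp
  obtain ⟨h0, h1⟩ := smR_Sh f m
  have e0 : m 0 = Finsupp.single n x 0 := by
    have := hm' 0
    rwa [h0, sub_zero] at this
  have e1 : ∀ k, m (k + 1) = f (m k) + Finsupp.single n x (k + 1) := by
    intro k
    have := hm' (k + 1)
    rw [h1] at this
    rw [← this]; abel
  have c1 : ∀ k, k < n → m k = 0 := by
    intro k
    induction k with
    | zero =>
      intro hk
      rw [e0, Finsupp.single_eq_of_ne (by omega)]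
    | succ k ih =>
      intro hk
      rw [e1, ih (by omega), map_zero, Finsupp.single_eq_of_ne (by omega), add_zero]
  have c2 : m n = x := by
    cases n with
    | zero => rw [e0]; simp
    | succ k => rw [e1, c1 k (by omega), map_zero]; simp
  have c3 : ∀ j, m (n + j) ≠ 0 := by
    intro j
    induction j with
    | zero => simpa [c2] using hx
    | succ j ih =>
      rw [← add_assoc, e1, Finsupp.single_eq_of_ne (by omega), add_zero]
      intro h
      exact ih (hf (by rw [h, map_zero]))
  have c4 := c3 (m.support.sup id + 1)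
  have c5 : n + (m.support.sup id + 1) ∈ m.support := Finsupp.mem_support_iff.mpr c4
  have c6 : n + (m.support.sup id + 1) ≤ m.support.sup id :=
    Finset.le_sup (f := id) c5
  omega

end Pool.Agent.H440S
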