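import Pool.Agent.H440S.Defs
import Pool.Agent.H440S.P_retract
import Pool.Agent.H440S.P_single_mem_Rg
import Pool.Agent.H440S.P_single_shift
import Pool.Agent.H440S.P_exists_single

set_option autoImplicit false

namespace Pool.Agent.H440S



theorem colim {R W : Type} [Ring R] [AddCommGroup W] [Module R W] (f ρ : W →ₗ[R] W)
    (hf : Function.Injective f) (h : ∀ x, ρ (f (f x)) = f x) :
    ∃ (N N' : Submodule R (ℕ →₀ W)) (i : ℕ → (W →ₗ[R] N)), IsCompl N N' ∧
      (∀ n x, i n x = i (n + 1) (f x)) ∧ (∀ n, Function.Injective (i n)) ∧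
      (∀ z : N, ∃ n x, z = i n x) := by
  obtain ⟨T, hT⟩ := retract f ρ h
  set D : (ℕ →₀ W) →ₗ[R] (ℕ →₀ W) := LinearMap.id - Sh f with hD
  have hTD : ∀ m, T (D m) = m := fun m => hT m
  set p : (ℕ →₀ W) →ₗ[R] (ℕ →₀ W) := LinearMap.id - D ∘ₗ T with hp
  have hp' : ∀ m, p m = m - D (T m) := fun m => rfl
  have hTp : ∀ m, T (p m) = 0 := by
    intro m
    rw [hp', map_sub, hTD, sub_self]
  have hpz : ∀ m, T m = 0 → p m = m := by
    intro m hm
    rw [hp', hm, map_zero, sub_zero]
  have hpR : ∀ m, m ∈ Rg f → p m = 0 := by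
    rintro m ⟨m', rfl⟩
    rw [hp']
    change D m' - D (T (D m')) = 0
    rw [hTD, sub_self]
  have hRp : ∀ m, p m = 0 → m ∈ Rg f := by
    intro m hm
    rw [hp', sub_eq_zero] at hm
    exact ⟨T m, hm.symm⟩
  have hmem : ∀ m, p m ∈ LinearMap.ker T := fun m => LinearMap.mem_ker.2 (hTp m)
  refine ⟨LinearMap.ker T, Rg f,
    fun n => (p.codRestrict (LinearMap.ker T) hmem) ∘ₗ (Finsupp.lsingle n), ?_, ?_, ?_, ?_⟩
  · constructor
    · rw [Submodule.disjoint_def]
      intro x hx hx'
      rw [LinearMap.mem_ker] at hx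
      rw [← hpz x hx]
      exact hpR x hx'
    · rw [codisjoint_iff, eq_top_iff]
      intro m _
      have : m = p m + D (T m) := by rw [hp']; abel
      rw [this]
      exact Submodule.add_mem_sup (hmem m) ⟨T m, rfl⟩
  · intro n x
    apply Subtype.ext
    change p (Finsupp.single n x) = p (Finsupp.single (n + 1) (f x))
    rw [← sub_eq_zero, ← map_sub]
    exact hpR _ (single_shift f n x)
  · intro n
    rw [injective_iff_map_eq_zero]
    intro x hx
    have hx' : p (Finsupp.single n x) = 0 := congrArg Subtype.val hx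
    exact single_mem_Rg f hf n x (hRp _ hx')
  · rintro ⟨z, hz⟩
    obtain ⟨n, x, hnx⟩ := exists_single f z
    refine ⟨n, x, Subtype.ext ?_⟩
    change z = p (Finsupp.single n x)
    have h1 := hpR _ hnx
    rw [map_sub, sub_eq_zero, hpz z (LinearMap.mem_ker.1 hz)] at h1
    exact h1

end Pool.Agent.H440S
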