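import Pool.Agent.H440S.Defs

set_option autoImplicit false

namespace Pool.Agent.H440S



theorem lead_eq_bot (x : BG) (p : GA) : lead x p = ⊥ ↔ p = 0 := by
  unfold lead
  constructor
  · intro h
    rw [Finset.sup_eq_bot_iff] at h
    have h2 : p.coeff.support = ∅ := by
      rw [Finset.eq_empty_iff_forall_notMem]
      intro g hg
      exact WithBot.coe_ne_bot (h g hg)
    rw [Finsupp.support_eq_empty] at h2
    exact MonoidAlgebra.ext (by rw [h2]; rfl)
  · rintro rfl
    have h2 : (0 : GA).coeff = 0 := rfl
    rw [h2]
    simp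

end Pool.Agent.H440S
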