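import Pool.Agent.H440S.Defs

set_option autoImplicit false

namespace Pool.Agent.H440S



theorem lm_left_le (a : BG) {x y : BG} (h : x ≤ y) : a * x ≤ a * y := by
  rcases h.eq_or_lt with rfl | h
  · exact le_rfl
  · exact (BG.mul_lt_mul_left' a h).le

theorem lead_mul (p : GA) (hp : p ≠ 0) :
    ∃ hat : BG → BG, StrictMono hat ∧ (∀ x : BG, lead x p = (hat x : WithBot BG)) ∧
      ∀ (q : GA) (x : BG), lead x (p * q) = (lead x q).map hat := by
  classical
  have hne : ∀ q : GA, q ≠ 0 → q.coeff.support.Nonempty := by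
    intro q hq
    rw [Finsupp.support_nonempty_iff]
    intro h
    exact hq (MonoidAlgebra.ext h)
  have hex : ∀ (q : GA), q ≠ 0 → ∀ x : BG, ∃ g ∈ q.coeff.support, ∀ h ∈ q.coeff.support,
      h * x ≤ g * x := by
    intro q hq x
    exact Finset.exists_max_image q.coeff.support (fun g => g * x) (hne q hq)
  have hlead : ∀ (q : GA) (x g : BG), g ∈ q.coeff.support →
      (∀ h ∈ q.coeff.support, h * x ≤ g * x) → lead x q = ((g * x : BG) : WithBot BG) := by
    intro q x g hg hmax
    unfold lead
    refine le_antisymm (Finset.sup_le fun h hh => WithBot.coe_le_coe.2 (hmax h hh)) ?_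
    exact Finset.le_sup (f := fun g : BG => ((g * x : BG) : WithBot BG)) hg
  choose G hG hGm using hex p hp
  refine ⟨fun x => G x * x, ?_, fun x => hlead p x (G x) (hG x) (hGm x), ?_⟩
  · intro x y hxy
    exact lt_of_lt_of_le (BG.mul_lt_mul_left' (G x) hxy) (hGm y (G x) (hG x))
  · intro q x
    by_cases hq : q = 0
    · subst hq
      rw [mul_zero]
      have h0 : lead x (0 : GA) = ⊥ := by
        unfold lead
        have : (0 : GA).coeff.support = ∅ := by
          rw [Finsupp.support_eq_empty]
          rfl
        rw [this, Finset.sup_empty]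
      rw [h0]
      rfl
    · obtain ⟨h0, hh0, hh0m⟩ := hex q hq x
      rw [hlead q x h0 hh0 hh0m]
      obtain ⟨m, hm⟩ : ∃ m : BG, m = h0 * x := ⟨_, rfl⟩
      obtain ⟨g0, hg0⟩ : ∃ g0 : BG, g0 = G m := ⟨_, rfl⟩
      have hg0s : g0 ∈ p.coeff.support := by
        rw [hg0]
        exact hG m
      have hg0m : ∀ g ∈ p.coeff.support, g * m ≤ g0 * m := by
        intro g hg
        rw [hg0]
        exact hGm m g hg
      have hbound : ∀ g ∈ p.coeff.support, ∀ h ∈ q.coeff.support, g * h * x ≤ g0 * h0 * x := by
        intro g hg h hh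
        rw [mul_assoc, mul_assoc, ← hm]
        exact (lm_left_le g (by rw [hm]; exact hh0m h hh)).trans (hg0m g hg)
      have huniq : ∀ g ∈ p.coeff.support, ∀ h ∈ q.coeff.support, g * h = g0 * h0 →
          g = g0 ∧ h = h0 := by
        intro g hg h hh hgh
        have e1 : g * (h * x) = g0 * m := by
          rw [← mul_assoc, hgh, hm, mul_assoc]
        have e2 : h * x ≤ m := by
          rw [hm]
          exact hh0m h hh
        have e3 : h * x = m := by
          by_contra hne
          have e4 := BG.mul_lt_mul_left' g (lt_of_le_of_ne e2 hne)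
          rw [e1] at e4
          exact absurd (hg0m g hg) (not_le.2 e4)
        rw [e3] at e1
        exact ⟨mul_right_cancel e1, mul_right_cancel (e3.trans hm)⟩
      have hmem : g0 * h0 ∈ (p * q).coeff.support := by
        rw [Finsupp.mem_support_iff]
        rw [MonoidAlgebra.coeff_mul_mul_of_uniqueMul (a0 := g0) (b0 := h0)
          (fun a b ha hb hab => huniq a ha b hb hab)]
        exact mul_ne_zero (Finsupp.mem_support_iff.1 hg0s) (Finsupp.mem_support_iff.1 hh0)
      rw [hlead (p * q) x (g0 * h0) hmem ?_]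
      · show ((g0 * h0 * x : BG) : WithBot BG) = ((G (h0 * x) * (h0 * x) : BG) : WithBot BG)
        rw [hg0, hm, mul_assoc]
      · intro y hy
        have hy2 := MonoidAlgebra.support_coeff_mul_subset p q hy
        obtain ⟨g, hg, h, hh, rfl⟩ := Finset.mem_mul.1 hy2
        exact hbound g hg h hh

end Pool.Agent.H440S
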