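import Pool.Agent.H440S.Defs
import Pool.Agent.H440S.P_lead_eq_bot
import Pool.Agent.H440S.P_lead_mul

set_option autoImplicit false

namespace Pool.Agent.H440S



theorem nzd (p q : GA) (hp : p ≠ 0) (hq : q ≠ 0) : p * q ≠ 0 := by
  intro h
  obtain ⟨hat, -, -, hm⟩ := lead_mul p hp
  have h1 : lead 1 (p * q) = ⊥ := (lead_eq_bot 1 (p * q)).2 h
  rw [hm q 1] at h1
  apply hq
  rw [← lead_eq_bot 1 q]
  cases hl : lead 1 q with
  | bot => rfl
  | coe a =>
    rw [hl] at h1
    exact absurd h1 (WithBot.coe_ne_bot (a := hat a))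

end Pool.Agent.H440S
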