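import Pool.Agent.H440S.Defs

set_option autoImplicit false

namespace Pool.Agent.H440S



theorem folner (E : Finset BG) : ∃ S : Finset BG, S.Nonempty ∧
    ∃ T : Finset BG, (∀ s ∈ S, ∀ e ∈ E, s * e ∈ T) ∧ T.card < 2 * S.card := by
  classical
  set D : ℕ := ∏ e ∈ E, e.s.den with hD
  have hDpos : 0 < D := Finset.prod_pos (fun e _ => e.s.den_pos)
  have hDq : (D : ℚ) ≠ 0 := by exact_mod_cast hDpos.ne'
  have hz : ∀ e ∈ E, ∃ z : ℤ, (D : ℚ) * e.s = z := by
    intro e he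
    obtain ⟨m, hm⟩ := Finset.dvd_prod_of_mem (fun e : BG => e.s.den) he
    refine ⟨(m : ℤ) * e.s.num, ?_⟩
    have h1 : (D : ℚ) = (e.s.den : ℚ) * m := by exact_mod_cast hm
    have h2 : (e.s.den : ℚ) * e.s = e.s.num := by
      rw [mul_comm]; exact Rat.mul_den_eq_num e.s
    rw [h1]
    push_cast
    rw [← h2]; ring
  choose! z hz using hz
  set B : ℕ := ∑ e ∈ E, (z e).natAbs with hB
  set J : ℕ := ∑ e ∈ E, e.i.natAbs with hJ
  have hBe : ∀ e ∈ E, |z e| ≤ (B : ℤ) := by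
    intro e he
    have : (z e).natAbs ≤ B := Finset.single_le_sum (f := fun e => (z e).natAbs)
      (fun _ _ => Nat.zero_le _) he
    rw [Int.abs_eq_natAbs]; exact_mod_cast this
  have hJe : ∀ e ∈ E, |e.i| ≤ (J : ℤ) := by
    intro e he
    have : e.i.natAbs ≤ J := Finset.single_le_sum (f := fun e : BG => e.i.natAbs)
      (fun _ _ => Nat.zero_le _) he
    rw [Int.abs_eq_natAbs]; exact_mod_cast this
  obtain ⟨n, hn⟩ : ∃ n : ℕ, n = 8 * J + 8 := ⟨_, rfl⟩
  obtain ⟨P, hP⟩ : ∃ P : ℕ, P = 2 ^ n := ⟨_, rfl⟩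
  have hPpos : 0 < P := by rw [hP]; positivity
  obtain ⟨K, hK⟩ : ∃ K : ℕ, K = 16 * P * (B + 1) := ⟨_, rfl⟩
  have hKpos : 0 < K := by rw [hK]; positivity
  have hnpos : 0 < n := by omega
  let fS : ℕ × ℕ → BG := fun p => ⟨(p.1 : ℚ) / D, (p.2 : ℤ)⟩
  let fT : ℤ × ℤ → BG := fun p => ⟨(p.1 : ℚ) / D, p.2⟩
  have hfS : Function.Injective fS := by
    rintro ⟨a, i⟩ ⟨b, j⟩ h
    have h1 : (a : ℚ) / D = (b : ℚ) / D := congrArg BG.s h
    have h2 : (i : ℤ) = (j : ℤ) := congrArg BG.i h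
    have h3 : (a : ℚ) = b := by
      field_simp at h1
      exact h1
    have h4 : a = b := by exact_mod_cast h3
    have h5 : i = j := by exact_mod_cast h2
    rw [h4, h5]
  refine ⟨(Finset.range K ×ˢ Finset.range n).image fS, ?_,
    (Finset.Icc (-((P * B : ℕ) : ℤ)) ((K + P * B : ℕ) : ℤ) ×ˢ
      Finset.Icc (-(J : ℤ)) ((n + J : ℕ) : ℤ)).image fT, ?_, ?_⟩
  · refine ⟨fS (0, 0), Finset.mem_image_of_mem _ ?_⟩
    simp [hKpos, hnpos]
  · intro s hs e he
    obtain ⟨⟨a, i⟩, hai, rfl⟩ := Finset.mem_image.1 hs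
    rw [Finset.mem_product, Finset.mem_range, Finset.mem_range] at hai
    obtain ⟨ha, hi⟩ := hai
    simp only at ha hi
    have hze := hz e he
    have hb := hBe e he
    have hj := hJe e he
    have hpow : (2 : ℤ) ^ i ≤ (P : ℤ) := by
      rw [hP]; push_cast
      exact pow_le_pow_right₀ (by norm_num) hi.le
    have hpow0 : (0 : ℤ) ≤ (2 : ℤ) ^ i := by positivity
    have hab : |(2 : ℤ) ^ i * z e| ≤ (P : ℤ) * B := by
      rw [abs_mul, abs_of_nonneg hpow0]
      exact mul_le_mul hpow hb (abs_nonneg _) (by positivity)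
    rw [abs_le] at hab hj
    refine Finset.mem_image.2 ⟨((a : ℤ) + 2 ^ i * z e, (i : ℤ) + e.i), ?_, ?_⟩
    · rw [Finset.mem_product, Finset.mem_Icc, Finset.mem_Icc]
      push_cast
      have ha' : (a : ℤ) < K := by exact_mod_cast ha
      have hi' : (i : ℤ) < n := by exact_mod_cast hi
      have ha0 : (0 : ℤ) ≤ a := by positivity
      have hi0 : (0 : ℤ) ≤ i := by positivity
      refine ⟨⟨?_, ?_⟩, ?_, ?_⟩ <;> linarith [hab.1, hab.2, hj.1, hj.2]
    · have hes : e.s = (z e : ℚ) / D := by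
        rw [← hze]; field_simp
      apply BG.ext
      · change (((a : ℤ) + 2 ^ i * z e : ℤ) : ℚ) / D = (a : ℚ) / D + 2 ^ ((i : ℕ) : ℤ) * e.s
        rw [hes, zpow_natCast]
        push_cast
        ring
      · rfl
  · rw [Finset.card_image_of_injective _ hfS, Finset.card_product, Finset.card_range,
      Finset.card_range]
    refine lt_of_le_of_lt Finset.card_image_le ?_
    rw [Finset.card_product, Int.card_Icc, Int.card_Icc]
    have e1 : (((K + P * B : ℕ) : ℤ) + 1 - (-((P * B : ℕ) : ℤ))).toNat = K + 2 * (P * B) + 1 := by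
      have : (((K + P * B : ℕ) : ℤ) + 1 - (-((P * B : ℕ) : ℤ))) = ((K + 2 * (P * B) + 1 : ℕ) : ℤ) := by
        push_cast; ring
      rw [this, Int.toNat_natCast]
    have e2 : (((n + J : ℕ) : ℤ) + 1 - (-(J : ℤ))).toNat = n + 2 * J + 1 := by
      have : (((n + J : ℕ) : ℤ) + 1 - (-(J : ℤ))) = ((n + 2 * J + 1 : ℕ) : ℤ) := by
        push_cast; ring
      rw [this, Int.toNat_natCast]
    rw [e1, e2]
    have h1 : 8 * (K + 2 * (P * B) + 1) ≤ 9 * K := by
      rw [hK]; nlinarith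
    have h2 : 4 * (n + 2 * J + 1) ≤ 5 * n := by omega
    have h3 : (8 * (K + 2 * (P * B) + 1)) * (4 * (n + 2 * J + 1)) ≤ (9 * K) * (5 * n) :=
      Nat.mul_le_mul h1 h2
    have h4 : 0 < K * n := Nat.mul_pos hKpos hnpos
    nlinarith

end Pool.Agent.H440S
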