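import Pool.Agent.H440S.Defs
import Pool.Agent.H440S.P_nzd
import Pool.Agent.H440S.P_folner

set_option autoImplicit false

namespace Pool.Agent.H440S

theorem ore (r s : GA) (hs : s ≠ 0) : ∃ r' s' : GA, s' ≠ 0 ∧ s' * r = r' * s := by
  classical
  obtain ⟨S, hS, T, hT, hcard⟩ := folner (r.coeff.support ∪ s.coeff.support)
  let emb : (S → ℚ) → GA := fun x => ∑ i : S, MonoidAlgebra.single i.1 (x i)
  have emb_add : ∀ x y, emb (x + y) = emb x + emb y := by
    intro x y
    simp only [emb, Pi.add_apply, MonoidAlgebra.single_add, Finset.sum_add_distrib]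
  have emb_smul : ∀ (c : ℚ) x, emb (c • x) = c • emb x := by
    intro c x
    simp only [emb, Pi.smul_apply, Finset.smul_sum, MonoidAlgebra.smul_single]
  have emb_coeff : ∀ x (i : S), (emb x).coeff i.1 = x i := by
    intro x i
    simp only [emb]
    rw [MonoidAlgebra.coeff_sum, Finsupp.finsetSum_apply, Finset.sum_eq_single i]
    · simp
    · intro j _ hj
      simp only [MonoidAlgebra.coeff_single]
      rw [Finsupp.single_apply, if_neg]
      intro h; exact hj (Subtype.ext h)
    · simp
  have emb_supp : ∀ x, (emb x).coeff.support ⊆ S := by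
    intro x g hg
    by_contra hgS
    apply Finsupp.mem_support_iff.mp hg
    simp only [emb]
    rw [MonoidAlgebra.coeff_sum, Finsupp.finsetSum_apply, Finset.sum_eq_zero]
    intro j _
    simp only [MonoidAlgebra.coeff_single]
    rw [Finsupp.single_apply, if_neg]
    intro h; exact hgS (h ▸ j.2)
  let Φ : ((S → ℚ) × (S → ℚ)) →ₗ[ℚ] (T → ℚ) :=
    { toFun := fun z t => (emb z.1 * r - emb z.2 * s).coeff t.1
      map_add' := by
        intro x y
        funext t
        have : emb (x + y).1 * r - emb (x + y).2 * s
            = (emb x.1 * r - emb x.2 * s) + (emb y.1 * r - emb y.2 * s) := by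
          simp only [Prod.fst_add, Prod.snd_add, emb_add, add_mul]; abel
        rw [this]; simp
      map_smul' := by
        intro c x
        funext t
        have : emb (c • x).1 * r - emb (c • x).2 * s
            = c • (emb x.1 * r - emb x.2 * s) := by
          simp only [Prod.smul_fst, Prod.smul_snd, emb_smul, smul_mul_assoc, smul_sub]
        rw [this]; simp }
  have hker : LinearMap.ker Φ ≠ ⊥ := by
    apply LinearMap.ker_ne_bot_of_finrank_lt
    rw [Module.finrank_prod, Module.finrank_fintype_fun_eq_card,
      Module.finrank_fintype_fun_eq_card, Fintype.card_coe, Fintype.card_coe]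
    omega
  obtain ⟨z, hz, hz0⟩ := (Submodule.ne_bot_iff _).mp hker
  have hsupp : ∀ (x : S → ℚ) (q : GA), q.coeff.support ⊆ r.coeff.support ∪ s.coeff.support →
      ∀ g, (emb x * q).coeff g ≠ 0 → g ∈ T := by
    intro x q hq g hg
    have h1 := MonoidAlgebra.support_coeff_mul_subset (emb x) q (Finsupp.mem_support_iff.mpr hg)
    obtain ⟨a, ha, b, hb, rfl⟩ := Finset.mem_mul.mp h1
    exact hT a (emb_supp x ha) b (hq hb)
  have heq : emb z.1 * r = emb z.2 * s := by
    rw [← sub_eq_zero]
    ext g
    by_cases hg : g ∈ T
    · have := congrFun (LinearMap.mem_ker.mp hz) ⟨g, hg⟩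
      simpa [Φ] using this
    · have h1 : (emb z.1 * r).coeff g = 0 := by
        by_contra h; exact hg (hsupp z.1 r Finset.subset_union_left g h)
      have h2 : (emb z.2 * s).coeff g = 0 := by
        by_contra h; exact hg (hsupp z.2 s Finset.subset_union_right g h)
      simp [h1, h2]
  refine ⟨emb z.2, emb z.1, ?_, heq⟩
  intro h0
  rw [h0, zero_mul] at heq
  have hz1 : z.1 = 0 := by
    funext i
    have := emb_coeff z.1 i
    rw [h0] at this
    simpa using this.symm
  have hz2 : emb z.2 ≠ 0 := by
    intro h
    apply hz0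
    have : z.2 = 0 := by
      funext i
      have := emb_coeff z.2 i
      rw [h] at this
      simpa using this.symm
    exact Prod.ext hz1 this
  exact nzd _ _ hz2 hs heq.symm

end Pool.Agent.H440S
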