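import Pool.Agent.H440S.Defs
import Pool.Agent.H440S.P_nzd
import Pool.Agent.H440S.P_ore

set_option autoImplicit false

namespace Pool.Agent.H440S



theorem common_den {F : Type} [DivisionRing F] (ι : GA →+* F) (hι : Function.Injective ι)
    (hf : ∀ f : F, ∃ s r : GA, s ≠ 0 ∧ ι s * f = ι r) (f f' : F) :
    ∃ d r r' : GA, d ≠ 0 ∧ ι d * f = ι r ∧ ι d * f' = ι r' := by
  obtain ⟨s, r, hs, h1⟩ := hf f
  obtain ⟨s', r', hs', h2⟩ := hf f'
  obtain ⟨p', p, hp, h3⟩ := ore s s' hs'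
  refine ⟨p * s, p * r, p' * r', nzd p s hp hs, ?_, ?_⟩
  · rw [map_mul, map_mul, mul_assoc, h1]
  · rw [h3, map_mul, map_mul, mul_assoc, h2]

end Pool.Agent.H440S
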