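import Pool.Agent.H440S.Defs
import Pool.Agent.H440S.P_aff_mem

set_option autoImplicit false

namespace Pool.Agent.H440S



theorem pi_comm (D : VData) (b t : D.F)
    (hb1 : ∀ f ∈ D.M (7 / 2), b * f - D.aff ⟨0, -3⟩ * f ∈ D.M 0)
    (hb2 : ∀ f ∈ D.M 7, b * f - D.aff ⟨7 / 2, -3⟩ * f ∈ D.M 4)
    (ht1 : ∀ f ∈ D.M 1, t * f - D.aff ⟨-1, 1⟩ * f ∈ D.M 0)
    (ht2 : ∀ f ∈ D.M 6, t * f - D.aff ⟨-5, 1⟩ * f ∈ D.M 4) :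
    (∀ f ∈ D.M 5, D.aff ⟨-4, 0⟩ * (b * f) - b * (D.aff ⟨-4, 0⟩ * f) ∈ D.M 0) ∧
    (∀ f ∈ D.M 5, D.aff ⟨-4, 0⟩ * (t * f) - t * (D.aff ⟨-4, 0⟩ * f) ∈ D.M 0) := by
  have e1 : D.aff ⟨-4, 0⟩ * D.aff ⟨7 / 2, -3⟩ = D.aff ⟨0, -3⟩ * D.aff ⟨-4, 0⟩ := by
    rw [← map_mul, ← map_mul]
    congr 1
    ext
    · simp only [BG.mul_s]; norm_num
    · simp only [BG.mul_i]; norm_num
  have e2 : D.aff ⟨-4, 0⟩ * D.aff ⟨-5, 1⟩ = D.aff ⟨-1, 1⟩ * D.aff ⟨-4, 0⟩ := by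
    rw [← map_mul, ← map_mul]
    congr 1
    ext
    · simp only [BG.mul_s]; norm_num
    · simp only [BG.mul_i]; norm_num
  have p4 : ∀ g ∈ D.M 4, D.aff ⟨-4, 0⟩ * g ∈ D.M 0 := by
    intro g hg
    exact (aff_mem D ⟨-4, 0⟩ 4 0 (by norm_num) g).2 hg
  have p5 : ∀ g ∈ D.M 5, D.aff ⟨-4, 0⟩ * g ∈ D.M 1 := by
    intro g hg
    exact (aff_mem D ⟨-4, 0⟩ 5 1 (by norm_num) g).2 hg
  constructor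
  · intro f hf
    have h1 := p4 _ (hb2 f (D.mono 5 7 (by norm_num) hf))
    have h2 := hb1 _ (D.mono 1 (7 / 2) (by norm_num) (p5 f hf))
    have h3 : D.aff ⟨-4, 0⟩ * (b * f) - b * (D.aff ⟨-4, 0⟩ * f) =
        D.aff ⟨-4, 0⟩ * (b * f - D.aff ⟨7 / 2, -3⟩ * f) -
          (b * (D.aff ⟨-4, 0⟩ * f) - D.aff ⟨0, -3⟩ * (D.aff ⟨-4, 0⟩ * f)) := by
      rw [mul_sub, ← mul_assoc (D.aff ⟨-4, 0⟩) (D.aff ⟨7 / 2, -3⟩) f, e1,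
        mul_assoc (D.aff ⟨0, -3⟩)]
      abel
    rw [h3]
    exact (D.M 0).sub_mem h1 h2
  · intro f hf
    have h1 := p4 _ (ht2 f (D.mono 5 6 (by norm_num) hf))
    have h2 := ht1 _ (p5 f hf)
    have h3 : D.aff ⟨-4, 0⟩ * (t * f) - t * (D.aff ⟨-4, 0⟩ * f) =
        D.aff ⟨-4, 0⟩ * (t * f - D.aff ⟨-5, 1⟩ * f) -
          (t * (D.aff ⟨-4, 0⟩ * f) - D.aff ⟨-1, 1⟩ * (D.aff ⟨-4, 0⟩ * f)) := by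
      rw [mul_sub, ← mul_assoc (D.aff ⟨-4, 0⟩) (D.aff ⟨-5, 1⟩) f, e2,
        mul_assoc (D.aff ⟨-1, 1⟩)]
      abel
    rw [h3]
    exact (D.M 0).sub_mem h1 h2

end Pool.Agent.H440S
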