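import Pool.Agent.H440S.Defs
import Pool.Agent.H440S.P_exE
import Pool.Agent.H440S.P_lemE
import Pool.Agent.H440S.P_lemE2

set_option autoImplicit false

namespace Pool.Agent.H440S



theorem t_est (D : VData) : ∃ t : D.F,
    (∀ f ∈ D.M 1, t * f - D.aff ⟨-1, 1⟩ * f ∈ D.M 0) ∧
    (∀ f ∈ D.M 6, t * f - D.aff ⟨-5, 1⟩ * f ∈ D.M 4) := by
  have hS1 : (⟨-4, 2⟩ : BG).s + 2 ^ (⟨-4, 2⟩ : BG).i * (1 : ℚ) = 0 := by norm_num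
  obtain ⟨e, he⟩ := exE D ⟨-4, 2⟩ 1 (by rw [hS1]; norm_num)
  refine ⟨D.aff ⟨-1, 1⟩ * (1 - e) + D.aff ⟨-5, 1⟩ * e, ?_, ?_⟩
  · intro f hf
    have h1 := lemE D ⟨-4, 2⟩ e he 1 (by rw [hS1]; norm_num) f hf
    rw [hS1] at h1
    have h2 : D.aff ⟨-5, 1⟩ * (e * f) ∈ D.M 0 := by
      refine D.mono (-5) 0 (by norm_num) ?_
      have h := (D.haff ⟨-5, 1⟩ 0 (e * f)).2 h1
      convert h using 2
      norm_num
    have h3 : D.aff ⟨-1, 1⟩ * (e * f) ∈ D.M 0 := by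
      refine D.mono (-1) 0 (by norm_num) ?_
      have h := (D.haff ⟨-1, 1⟩ 0 (e * f)).2 h1
      convert h using 2
      norm_num
    have h4 : (D.aff ⟨-1, 1⟩ * (1 - e) + D.aff ⟨-5, 1⟩ * e) * f - D.aff ⟨-1, 1⟩ * f
        = D.aff ⟨-5, 1⟩ * (e * f) - D.aff ⟨-1, 1⟩ * (e * f) := by
      noncomm_ring
    rw [h4]
    exact (D.M 0).sub_mem h2 h3
  · intro f hf
    have hS6 : (6 : ℚ) < (⟨-4, 2⟩ : BG).s + 2 ^ (⟨-4, 2⟩ : BG).i * (6 : ℚ) := by norm_num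
    have h1 := lemE2 D ⟨-4, 2⟩ e he 6 hS6 f hf
    have hS5 : ((⟨-4, 2⟩ : BG)⁻¹).s + 2 ^ ((⟨-4, 2⟩ : BG)⁻¹).i * (6 : ℚ) = 5 / 2 := by
      simp only [BG.inv_s, BG.inv_i]
      norm_num [zpow_neg]
    rw [hS5] at h1
    have h2 : D.aff ⟨-5, 1⟩ * ((1 - e) * f) ∈ D.M 4 := by
      refine D.mono 0 4 (by norm_num) ?_
      have h := (D.haff ⟨-5, 1⟩ (5 / 2) ((1 - e) * f)).2 h1
      convert h using 2
      norm_num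
    have h3 : D.aff ⟨-1, 1⟩ * ((1 - e) * f) ∈ D.M 4 := by
      have h := (D.haff ⟨-1, 1⟩ (5 / 2) ((1 - e) * f)).2 h1
      convert h using 2
      norm_num
    have h4 : (D.aff ⟨-1, 1⟩ * (1 - e) + D.aff ⟨-5, 1⟩ * e) * f - D.aff ⟨-5, 1⟩ * f
        = D.aff ⟨-1, 1⟩ * ((1 - e) * f) - D.aff ⟨-5, 1⟩ * ((1 - e) * f) := by
      noncomm_ring
    rw [h4]
    exact (D.M 4).sub_mem h3 h2
end Pool.Agent.H440S
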