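import Pool.Agent.H440S.Defs
import Pool.Agent.H440S.P_affv

set_option autoImplicit false

namespace Pool.Agent.H440S



theorem t_surj0 (D : VData) (t : D.F)
    (ht2 : ∀ f ∈ D.M 6, t * f - D.aff ⟨-5, 1⟩ * f ∈ D.M 4)
    (m : D.F) (hm : m ∈ D.M 5) : ∃ f ∈ D.M 5, t * f = m := by
  have claim : ∀ g ∈ D.M 6, t * g ∈ D.M 5 → g ∈ D.M 5 := by
    intro g hg htg
    have h1 := D.mono 4 5 (by norm_num) (ht2 g hg)
    have h2 : D.aff ⟨-5, 1⟩ * g ∈ D.M 5 := by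
      have h3 := (D.M 5).sub_mem htg h1
      have e : t * g - (t * g - D.aff ⟨-5, 1⟩ * g) = D.aff ⟨-5, 1⟩ * g := by abel
      rwa [e] at h3
    have h4 := D.haff ⟨-5, 1⟩ 5 g
    have e : ((-5 : ℚ) + 2 ^ (1 : ℤ) * 5) = 5 := by norm_num
    change D.aff ⟨-5, 1⟩ * g ∈ D.M ((-5 : ℚ) + 2 ^ (1 : ℤ) * 5) ↔ g ∈ D.M 5 at h4
    rw [e] at h4
    exact h4.mp h2
  have h5 : D.aff ⟨5, 0⟩ ∉ D.M 5 := by
    rw [affv]
    exact lt_irrefl _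
  have h6 : D.aff ⟨5, 0⟩ ∈ D.M 6 := by
    rw [affv]
    norm_num
  have h5' : t * D.aff ⟨5, 0⟩ ∉ D.M 5 := fun h => h5 (claim _ h6 h)
  have ht0 : t ≠ 0 := by
    rintro rfl
    apply h5'
    rw [zero_mul]
    exact (D.M 5).zero_mem
  have htf : t * (t⁻¹ * m) = m := by
    rw [← mul_assoc, mul_inv_cancel₀ ht0, one_mul]
  refine ⟨t⁻¹ * m, ?_, htf⟩
  rcases D.tot (t⁻¹ * m) (D.aff ⟨5, 0⟩) with h | h
  · exact absurd (h t 5 (by rw [htf]; exact hm)) h5'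
  · have h7 := h 1 6 (by rw [one_mul]; exact h6)
    rw [one_mul] at h7
    exact claim _ h7 (by rw [htf]; exact hm)

end Pool.Agent.H440S
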