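import Pool.Agent.H440S.Defs
import Pool.Agent.H440S.P_rmul

set_option autoImplicit false

namespace Pool.Agent.H440S



theorem tot_r (D : VData) (f f' : D.F) : ∃ r : D.F, (∀ c : ℚ, ∀ g ∈ D.M c, g * r ∈ D.M c) ∧
    (f' = f * r ∨ f = f' * r) := by
  by_cases hf : f = 0
  · refine ⟨0, fun c g _ => ?_, Or.inr ?_⟩
    · rw [mul_zero]; exact (D.M c).zero_mem
    · rw [hf, mul_zero]
  by_cases hf' : f' = 0
  · refine ⟨0, fun c g _ => ?_, Or.inl ?_⟩
    · rw [mul_zero]; exact (D.M c).zero_mem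
    · rw [hf', mul_zero]
  rcases D.tot f f' with h | h
  · refine ⟨f⁻¹ * f', fun c g hg => rmul D f f' hf h g c hg, Or.inl ?_⟩
    rw [mul_inv_cancel_left₀ hf]
  · refine ⟨f'⁻¹ * f, fun c g hg => rmul D f' f hf' h g c hg, Or.inr ?_⟩
    rw [mul_inv_cancel_left₀ hf']

end Pool.Agent.H440S
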