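import Pool.Agent.H440S.Defs
import Pool.Agent.H440S.P_affv
import Pool.Agent.H440S.P_b_est
import Pool.Agent.H440S.P_t_est
import Pool.Agent.H440S.P_aff_mem
import Pool.Agent.H440S.P_bt_maps
import Pool.Agent.H440S.P_b_inj0
import Pool.Agent.H440S.P_t_surj0
import Pool.Agent.H440S.P_pi_comm
import Pool.Agent.H440S.P_tot_r

set_option autoImplicit false

namespace Pool.Agent.H440S



theorem edata (D : VData) : Nonempty EData := by
  obtain ⟨b, hb1, hb2⟩ := b_est D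
  obtain ⟨t, ht1, ht2⟩ := t_est D
  obtain ⟨m1, m2, m3, m4, m5, m6, m7, m8⟩ := bt_maps D b t hb1 hb2 ht1 ht2
  obtain ⟨p1, p2⟩ := pi_comm D b t hb1 hb2 ht1 ht2
  have hpi : ∀ c d : ℚ, d = c - 4 → ∀ f : D.F, D.aff ⟨-4, 0⟩ * f ∈ D.M d ↔ f ∈ D.M c := by
    intro c d h f
    apply aff_mem D ⟨-4, 0⟩ c d
    rw [h]; simp; ring
  have ha : ∀ c d : ℚ, d = 3 / 2 + c / 4 → ∀ f : D.F,
      D.aff ⟨3 / 2, -2⟩ * f ∈ D.M d ↔ f ∈ D.M c := by
    intro c d h f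
    apply aff_mem D ⟨3 / 2, -2⟩ c d
    rw [h]; norm_num [zpow_neg]; ring
  have hw : ∀ c d : ℚ, d = -18 + 4 * c → ∀ f : D.F,
      D.aff ⟨-18, 2⟩ * f ∈ D.M d ↔ f ∈ D.M c := by
    intro c d h f
    apply aff_mem D ⟨-18, 2⟩ c d
    rw [h]; norm_num
  have k5 : D.aff ⟨3, 0⟩ ∈ D.M 5 := (affv D 3 5).2 (by norm_num)
  refine ⟨{ F := D.F, M0 := D.M 0, M2 := D.M 2, M5 := D.M 5, M6 := D.M 6,
            h02 := D.mono _ _ (by norm_num), h25 := D.mono _ _ (by norm_num),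
            h56 := D.mono _ _ (by norm_num),
            tot := ?_, b := b, t := t, π := D.aff ⟨-4, 0⟩, a := D.aff ⟨3 / 2, -2⟩,
            w := D.aff ⟨-18, 2⟩,
            hb0 := m1, hb5 := m2, ht0 := m3, ht5 := m4, hπ0 := ?_, hπ5 := ?_, ha2 := ?_,
            ha6 := ?_, hw2 := ?_, hw6 := ?_, hy2 := m5, hy6 := ?_,
            b_inj := fun f _ hf => b_inj0 D b hb1 f hf,
            b_ns := ?_, t_surj := ?_, t_ni := ?_, a_inj := ?_, a_ns := ?_, w_surj := ?_,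
            w_ni := ?_, ya := ?_, wc := ?_, wa := ?_, πb := p1, πt := p2, πc := ?_, πy := ?_,
            ππ := ?_, k := D.aff ⟨3, 0⟩, k5 := k5, k1 := ?_, k2 := ?_ }⟩
  · intro f f'
    obtain ⟨r, hr, h⟩ := tot_r D f f'
    exact ⟨r, hr 0, hr 2, hr 5, hr 6, h⟩
  · intro f hf
    exact D.mono (-4) 0 (by norm_num) ((hpi 0 (-4) (by norm_num) f).2 hf)
  · intro f hf
    exact D.mono 1 5 (by norm_num) ((hpi 5 1 (by norm_num) f).2 hf)
  · intro f hf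
    exact (ha 2 2 (by norm_num) f).2 hf
  · intro f hf
    exact D.mono 3 6 (by norm_num) ((ha 6 3 (by norm_num) f).2 hf)
  · intro f hf
    exact D.mono (-10) 2 (by norm_num) ((hw 2 (-10) (by norm_num) f).2 hf)
  · intro f hf
    exact (hw 6 6 (by norm_num) f).2 hf
  · intro f hf
    exact D.mono 4 5 (by norm_num) (m6 f hf)
  · refine ⟨D.aff ⟨9 / 2, 0⟩, (affv D _ _).2 (by norm_num), ?_⟩
    intro f hf hc
    have h1 : b * f - D.aff ⟨9 / 2, 0⟩ ∈ D.M (33 / 8) := D.mono 0 _ (by norm_num) hc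
    have h2 := (D.M (33 / 8)).sub_mem (m8 f hf) h1
    rw [sub_sub_cancel] at h2
    have h3 := (affv D _ _).1 h2
    norm_num at h3
  · intro m hm
    obtain ⟨f, hf, h⟩ := t_surj0 D t ht2 m hm
    exact ⟨f, hf, by rw [h, sub_self]; exact (D.M 0).zero_mem⟩
  · have h1 : D.aff ⟨1 / 4, 0⟩ ∈ D.M (1 / 2) := (affv D _ _).2 (by norm_num)
    refine ⟨D.aff ⟨1 / 4, 0⟩, D.mono _ _ (by norm_num) h1, ?_, ?_⟩
    · intro h
      have h3 := (affv D _ _).1 h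
      norm_num at h3
    · have h2 := ht1 (D.aff ⟨1 / 4, 0⟩) (D.mono _ _ (by norm_num) h1)
      have h3 : D.aff ⟨-1, 1⟩ * D.aff ⟨1 / 4, 0⟩ ∈ D.M 0 :=
        (aff_mem D ⟨-1, 1⟩ (1 / 2) 0 (by norm_num) _).2 h1
      have h4 := (D.M 0).add_mem h2 h3
      rwa [sub_add_cancel] at h4
  · intro f _ hf
    exact (ha 2 2 (by norm_num) f).1 hf
  · refine ⟨D.aff ⟨5, 0⟩, (affv D _ _).2 (by norm_num), ?_⟩
    intro f hf hc
    have h1 : D.aff ⟨3 / 2, -2⟩ * f - D.aff ⟨5, 0⟩ ∈ D.M 3 := D.mono 2 3 (by norm_num) hc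
    have h2 := (D.M 3).sub_mem ((ha 6 3 (by norm_num) f).2 hf) h1
    rw [sub_sub_cancel] at h2
    have h3 := (affv D _ _).1 h2
    norm_num at h3
  · intro m hm
    have h1 : D.aff ⟨-18, 2⟩ * (D.aff (⟨-18, 2⟩ : BG)⁻¹ * m) = m := by
      rw [← mul_assoc, ← map_mul, mul_inv_cancel, map_one, one_mul]
    refine ⟨D.aff (⟨-18, 2⟩ : BG)⁻¹ * m, ?_, ?_⟩
    · rw [← hw 6 6 (by norm_num), h1]
      exact hm
    · rw [h1, sub_self]
      exact (D.M 2).zero_mem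
  · refine ⟨D.aff ⟨3, 0⟩, D.mono 5 6 (by norm_num) k5, ?_, ?_⟩
    · intro h
      have h3 := (affv D _ _).1 h
      norm_num at h3
    · exact (hw 5 2 (by norm_num) _).2 k5
  · intro f hf
    exact m7 _ ((ha 6 3 (by norm_num) f).2 hf)
  · intro f hf
    exact (hw 5 2 (by norm_num) _).2 hf
  · intro f hf
    exact (hw 5 2 (by norm_num) _).2 (D.mono 3 5 (by norm_num) ((ha 6 3 (by norm_num) f).2 hf))
  · intro f hf
    exact D.mono 1 2 (by norm_num) ((hpi 5 1 (by norm_num) f).2 hf)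
  · intro f hf
    exact (hpi 4 0 (by norm_num) _).2 (m6 f hf)
  · intro f hf
    exact D.mono (-3) 0 (by norm_num)
      ((hpi 1 (-3) (by norm_num) _).2 ((hpi 5 1 (by norm_num) f).2 hf))
  · have hk : D.aff ⟨3, 0⟩ ∈ D.M (7 / 2) := (affv D _ _).2 (by norm_num)
    refine ⟨D.aff ⟨4, -3⟩ * D.aff ⟨3, 0⟩, ?_, ?_⟩
    · exact D.mono (4 + 7 / 16) 5 (by norm_num)
        ((aff_mem D ⟨4, -3⟩ (7 / 2) (4 + 7 / 16) (by norm_num [zpow_neg]) _).2 hk)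
    · have h1 : D.aff ⟨-4, 0⟩ * (D.aff ⟨4, -3⟩ * D.aff ⟨3, 0⟩)
          = D.aff ⟨0, -3⟩ * D.aff ⟨3, 0⟩ := by
        rw [← mul_assoc, ← map_mul]
        congr 2
        ext <;> simp
      rw [h1]
      exact hb1 _ hk
  · intro v hv hc
    have h1 : D.aff ⟨3, 0⟩ - D.aff ⟨3 / 2, -2⟩ * v ∈ D.M 3 := D.mono 2 3 (by norm_num) hc
    have h2 := (D.M 3).add_mem h1 ((ha 6 3 (by norm_num) v).2 hv)
    rw [sub_add_cancel] at h2
    have h3 := (affv D _ _).1 h2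
    norm_num at h3

end Pool.Agent.H440S
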