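import Pool.Agent.H440S.Defs
import Pool.Agent.H440S.P_add_inj
import Pool.Agent.H440S.P_add_surj

set_option autoImplicit false

namespace Pool.Agent.H440S



theorem exists_rho {R U V : Type} [Ring R] [AddCommGroup U] [Module R U] [AddCommGroup V]
    [Module R V] (D : TData R U V) :
    ∃ ρ : U × V →ₗ[R] U × V, ∀ x, ρ (phi D (phi D x)) = phi D x := by
  have hTi : Function.Injective (D.b + D.t) := add_inj D.uU D.b D.t D.b_inj D.t_ni
  have hTs : Function.Surjective (D.b + D.t) := by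
    rw [add_comm]; exact add_surj D.uU D.t D.b D.t_surj D.b_ns
  have hQi : Function.Injective (D.a + D.w) := add_inj D.uV D.a D.w D.a_inj D.w_ni
  have hQs : Function.Surjective (D.a + D.w) := by
    rw [add_comm]; exact add_surj D.uV D.w D.a D.w_surj D.a_ns
  let Te := LinearEquiv.ofBijective (D.b + D.t) ⟨hTi, hTs⟩
  let Ti : U →ₗ[R] U := Te.symm.toLinearMap
  have hTi' : ∀ u, Ti (D.b u + D.t u) = u := fun u => Te.symm_apply_apply u
  let G : V →ₗ[R] V := D.c ∘ₗ Ti ∘ₗ D.y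
  obtain ⟨v0, hv0⟩ : ∃ v0 : V, v0 ≠ 0 := by
    by_contra hcon
    push Not at hcon
    apply D.w_ni
    intro v v' _
    rw [hcon v, hcon v']
  have hGi : ¬ Function.Injective G := by
    intro h
    have h1 : G (D.a v0) = G 0 := by
      show D.c (Ti (D.y (D.a v0))) = G 0
      rw [D.ya, map_zero, map_zero, map_zero]
    have h2 := h h1
    exact hv0 (D.a_inj (by rw [h2, map_zero]))
  have hGs : ¬ Function.Surjective G := by
    intro h
    obtain ⟨v1, hv1⟩ := D.w_surj v0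
    obtain ⟨v2, hv2⟩ := h v1
    apply hv0
    rw [← hv1, ← hv2]
    exact D.wc _
  have hPi : Function.Injective ((D.a + D.w) + G) := add_inj D.uV _ G hQi hGi
  have hPs : Function.Surjective ((D.a + D.w) + G) := add_surj D.uV _ G hQs hGs
  let Pe := LinearEquiv.ofBijective ((D.a + D.w) + G) ⟨hPi, hPs⟩
  let Pi : V →ₗ[R] V := Pe.symm.toLinearMap
  have hPi' : ∀ v, Pi (D.a v + D.w v + D.c (Ti (D.y v))) = v := fun v => Pe.symm_apply_apply v
  let rV : U × V →ₗ[R] V := Pi ∘ₗ (LinearMap.snd R U V - D.c ∘ₗ Ti ∘ₗ LinearMap.fst R U V)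
  let ρ : U × V →ₗ[R] U × V := LinearMap.prod (Ti ∘ₗ (LinearMap.fst R U V + D.y ∘ₗ rV)) rV
  have hρ : ∀ u v, ρ (D.b u + D.t u - D.y v, D.a v + D.w v + D.c u) = (u, v) := by
    intro u v
    have h1 : rV (D.b u + D.t u - D.y v, D.a v + D.w v + D.c u) = v := by
      show Pi (D.a v + D.w v + D.c u - D.c (Ti (D.b u + D.t u - D.y v))) = v
      rw [map_sub Ti, hTi', map_sub D.c]
      have : D.a v + D.w v + D.c u - (D.c u - D.c (Ti (D.y v))) =
        D.a v + D.w v + D.c (Ti (D.y v)) := by abel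
      rw [this, hPi']
    show (Ti (D.b u + D.t u - D.y v + D.y (rV (D.b u + D.t u - D.y v, D.a v + D.w v + D.c u))),
      rV (D.b u + D.t u - D.y v, D.a v + D.w v + D.c u)) = (u, v)
    rw [h1, sub_add_cancel, hTi']
  refine ⟨ρ, ?_⟩
  rintro ⟨u, v⟩
  have h1 : phi D (u, v) = (D.b u, D.c u + D.a v) := rfl
  have h2 : phi D (D.b u, D.c u + D.a v) = (D.b (D.b u), D.c (D.b u) + D.a (D.c u + D.a v)) := rfl
  rw [h1, h2]
  have h3 := hρ (D.b u) (D.c u + D.a v)
  rw [D.tb, map_add D.y, D.ya, map_add D.w, D.wc, D.wa] at h3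
  simp only [add_zero, add_sub_cancel_right] at h3
  rw [add_comm (D.c (D.b u))]
  exact h3

end Pool.Agent.H440S
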