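import Pool.Agent.H440S.Defs

set_option autoImplicit false

namespace Pool.Agent.H440S



theorem i_not_eps {R U V N : Type} [Ring R] [AddCommGroup U] [Module R U] [AddCommGroup V]
    [Module R V] [AddCommGroup N] [Module R N] (D : TData R U V)
    (i : ℕ → (U × V →ₗ[R] N)) (hi : ∀ n x, i n x = i (n + 1) (phi D x))
    (hinj : ∀ n, Function.Injective (i n)) (hsurj : ∀ z : N, ∃ n x, z = i n x)
    (n : ℕ) (v : V) (z : N) (h : i n (0, v) = D.ε • z) : v = 0 := by
  have hraise : ∀ (j n : ℕ) (x : U × V), i n x = i (n + j) ((phi D)^[j] x) := by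
    intro j
    induction j with
    | zero => intro n x; rfl
    | succ j ih =>
      intro n x
      rw [ih n x, hi (n + j), Function.iterate_succ_apply']
      rfl
  have hzero : ∀ (j : ℕ) (v : V), (phi D)^[j] ((0 : U), v) = ((0 : U), (D.a)^[j] v) := by
    intro j
    induction j with
    | zero => intro v; rfl
    | succ j ih =>
      intro v
      rw [Function.iterate_succ_apply', ih, Function.iterate_succ_apply']
      simp [phi]
  obtain ⟨p, x, rfl⟩ := hsurj z
  have h1 := hraise (max n p - n) n (0, v)
  have h2 := hraise (max n p - p) p x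
  rw [hzero] at h1
  have e1 : n + (max n p - n) = max n p := by omega
  have e2 : p + (max n p - p) = max n p := by omega
  rw [e1] at h1
  rw [e2] at h2
  rw [h1, h2, ← map_smul] at h
  have h3 := hinj _ h
  have h4 := congrArg Prod.snd h3
  rw [Prod.smul_snd, D.εV] at h4
  have h5 : (D.a)^[max n p - n] v = (D.a)^[max n p - n] 0 := by
    have h6 : ∀ j, (D.a)^[j] (0 : V) = 0 := by
      intro j
      induction j with
      | zero => rfl
      | succ j ih => rw [Function.iterate_succ_apply', ih, map_zero]
    rw [h6]; exact h4
  exact D.a_inj.iterate _ h5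

end Pool.Agent.H440S
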