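import Pool.Agent.H440S.Defs

set_option autoImplicit false

namespace Pool.Agent.H440S



theorem key_elt {R U V N : Type} [Ring R] [AddCommGroup U] [Module R U] [AddCommGroup V]
    [Module R V] [AddCommGroup N] [Module R N] (D : TData R U V)
    (i : ℕ → (U × V →ₗ[R] N)) (hi : ∀ n x, i n x = i (n + 1) (phi D x))
    (n : ℕ) (u : U) (v : V) (hx : ¬ ∃ z : N, i n (u, v) = D.ε • z) :
    ∃ (s : R) (m : ℕ) (v' : V) (z : N), v' ≠ 0 ∧ s • i n (u, v) = i m (0, v') + D.ε • z := by
  have hphi : ∀ (p : U) (q : V), phi D (p, q) = (D.b p, D.c p + D.a q) := fun p q => rfl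
  have hstep : ∀ (p : U) (q : V) (u' : U), D.b p = D.ε • u' →
      i n (p, q) = i (n + 1) (0, D.c p + D.a q) + D.ε • i (n + 1) (u', 0) := by
    intro p q u' h
    rw [hi, hphi, h, ← map_smul, ← map_add]
    congr 1
    simp
  by_cases h : ∃ u', D.b u = D.ε • u'
  · obtain ⟨u', hu'⟩ := h
    refine ⟨1, n + 1, D.c u + D.a v, i (n + 1) (u', 0), ?_, ?_⟩
    · intro h0
      apply hx
      refine ⟨i (n + 1) (u', 0), ?_⟩
      rw [hstep u v u' hu', h0]
      have : ((0 : U), (0 : V)) = 0 := rfl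
      rw [this, map_zero, zero_add]
    · rw [one_smul]
      exact hstep u v u' hu'
  · obtain ⟨u1, hu1⟩ := D.k1
    rcases D.uU u D.k with ⟨r, hr⟩ | ⟨r, hr⟩
    · exfalso
      apply h
      refine ⟨r • u1, ?_⟩
      rw [hr, map_smul, hu1, smul_smul, smul_smul, D.central]
    · refine ⟨r, n + 1, D.c D.k + D.a (r • v), i (n + 1) (u1, 0), ?_, ?_⟩
      · intro h0
        apply D.k2 (-(r • v))
        rw [map_neg]
        exact eq_neg_of_add_eq_zero_left h0
      · rw [← map_smul, Prod.smul_mk, ← hr]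
        exact hstep D.k (r • v) u1 hu1

end Pool.Agent.H440S
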