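import Pool.Agent.H440S.Defs

set_option autoImplicit false

namespace Pool.Agent.H440S



theorem not_eps {R N : Type} [Ring R] [AddCommGroup N] [Module R N] (ε : R)
    (hc : ∀ r : R, ε * r = r * ε) (hε : ∀ n : N, ε • ε • n = 0) (A B : Submodule R N)
    (h1 : A ⊔ B = ⊤) (h2 : A ⊓ B = ⊥) (hA : ∀ α ∈ A, ∃ n : N, α = ε • n) : A = ⊥ := by
  have key : ∀ α ∈ A, ∃ α' ∈ A, α = ε • α' := by
    intro α hα
    obtain ⟨n, hn⟩ := hA α hα
    have hnT : n ∈ A ⊔ B := by rw [h1]; exact Submodule.mem_top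
    obtain ⟨a, ha, b, hb, hab⟩ := Submodule.mem_sup.1 hnT
    refine ⟨a, ha, ?_⟩
    have h3 : ε • b = α - ε • a := by rw [hn, ← hab, smul_add]; abel
    have h4 : ε • b ∈ A ⊓ B := ⟨by rw [h3]; exact A.sub_mem hα (A.smul_mem _ ha), B.smul_mem _ hb⟩
    rw [h2, Submodule.mem_bot] at h4
    rw [h4] at h3
    exact (sub_eq_zero.1 h3.symm)
  rw [Submodule.eq_bot_iff]
  intro α hα
  obtain ⟨a, ha, h⟩ := key α hα
  obtain ⟨a', ha', h'⟩ := key a ha
  rw [h, h', hε]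

end Pool.Agent.H440S
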