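import Pool.Agent.H440S.Defs
import Pool.Agent.H440S.P_not_eps
import Pool.Agent.H440S.P_key_elt
import Pool.Agent.H440S.P_i_not_eps

set_option autoImplicit false

namespace Pool.Agent.H440S



theorem indec_raise {R U V N : Type} [Ring R] [AddCommGroup U] [Module R U] [AddCommGroup V]
    [Module R V] [AddCommGroup N] [Module R N] (D : TData R U V)
    (i : ℕ → (U × V →ₗ[R] N)) (hi : ∀ n x, i n x = i (n + 1) (phi D x)) (m : ℕ) (v : V)
    (hv : v ≠ 0) (j : ℕ) : ∃ v' : V, v' ≠ 0 ∧ i m (0, v) = i (m + j) (0, v') := by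
  induction j with
  | zero => exact ⟨v, hv, rfl⟩
  | succ j ih =>
    obtain ⟨v', h1, h2⟩ := ih
    refine ⟨D.a v', ?_, ?_⟩
    · intro h
      exact h1 (D.a_inj (by rw [h, map_zero]))
    · rw [h2, hi (m + j)]
      congr 1
      simp [phi]

theorem indec_aux {R U V N : Type} [Ring R] [AddCommGroup U] [Module R U] [AddCommGroup V]
    [Module R V] [AddCommGroup N] [Module R N] (D : TData R U V)
    (i : ℕ → (U × V →ₗ[R] N)) (hi : ∀ n x, i n x = i (n + 1) (phi D x))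
    (hinj : ∀ n, Function.Injective (i n)) (hsurj : ∀ z : N, ∃ n x, z = i n x)
    (A B : Submodule R N) (h1 : A ⊔ B = ⊤) (h2 : A ⊓ B = ⊥) (m : ℕ) (s s' r : R) (v1 v2 : V)
    (α β z1 z2 : N) (hα : α ∈ A) (hβ : β ∈ B) (e1 : s • α = i m (0, v1) + D.ε • z1)
    (e2 : s' • β = i m (0, v2) + D.ε • z2) (hr : v1 = r • v2) : v1 = 0 := by
  have e3 : i m (0, v1) = r • i m (0, v2) := by
    rw [← map_smul, hr]
    congr 1
    simp
  have hcomm : r • D.ε • z2 = D.ε • r • z2 := by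
    rw [smul_smul, smul_smul, D.central]
  obtain ⟨α', hα', β', hβ', hz⟩ := Submodule.mem_sup.mp
    (show z1 - r • z2 ∈ A ⊔ B by rw [h1]; trivial)
  have e4 : s • α = (r * s') • β + D.ε • (z1 - r • z2) := by
    rw [e1, e3, mul_smul, e2, smul_add, hcomm, smul_sub]
    abel
  have e5 : s • α - D.ε • α' = (r * s') • β + D.ε • β' := by
    rw [e4, ← hz, smul_add]
    abel
  have e6 : s • α - D.ε • α' ∈ A ⊓ B := by
    refine ⟨A.sub_mem (A.smul_mem _ hα) (A.smul_mem _ hα'), ?_⟩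
    rw [e5]
    exact B.add_mem (B.smul_mem _ hβ) (B.smul_mem _ hβ')
  rw [h2, Submodule.mem_bot, sub_eq_zero] at e6
  refine i_not_eps D i hi hinj hsurj m v1 (α' - z1) ?_
  rw [smul_sub, ← e6, e1]
  abel

theorem indec {R U V N : Type} [Ring R] [AddCommGroup U] [Module R U] [AddCommGroup V]
    [Module R V] [AddCommGroup N] [Module R N] (D : TData R U V)
    (i : ℕ → (U × V →ₗ[R] N)) (hi : ∀ n x, i n x = i (n + 1) (phi D x))
    (hinj : ∀ n, Function.Injective (i n)) (hsurj : ∀ z : N, ∃ n x, z = i n x)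
    (A B : Submodule R N) (h1 : A ⊔ B = ⊤) (h2 : A ⊓ B = ⊥) : A = ⊥ ∨ B = ⊥ := by
  by_contra hcon
  push Not at hcon
  obtain ⟨hA, hB⟩ := hcon
  have heps : ∀ z : N, D.ε • D.ε • z = 0 := by
    intro z
    obtain ⟨n, ⟨u, v⟩, rfl⟩ := hsurj z
    rw [← map_smul, ← map_smul]
    have : D.ε • D.ε • ((u, v) : U × V) = 0 := by
      simp [D.εεU, D.εV]
    rw [this, map_zero]
  have hα : ∃ α ∈ A, ¬ ∃ n : N, α = D.ε • n := by
    by_contra h
    push Not at h
    exact hA (not_eps D.ε D.central heps A B h1 h2 h)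
  have hβ : ∃ β ∈ B, ¬ ∃ n : N, β = D.ε • n := by
    by_contra h
    push Not at h
    exact hB (not_eps D.ε D.central heps B A (by rw [sup_comm]; exact h1)
      (by rw [inf_comm]; exact h2) h)
  obtain ⟨α, hαA, hαn⟩ := hα
  obtain ⟨β, hβB, hβn⟩ := hβ
  obtain ⟨n, ⟨u, v⟩, e⟩ := hsurj α
  obtain ⟨n', ⟨u', v'⟩, e'⟩ := hsurj β
  obtain ⟨s, m, v1, z1, hv1, k1⟩ := key_elt D i hi n u v (by rw [← e]; exact hαn)
  obtain ⟨s', m', v2, z2, hv2, k2⟩ := key_elt D i hi n' u' v' (by rw [← e']; exact hβn)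
  rw [← e] at k1
  rw [← e'] at k2
  obtain ⟨w1, hw1, l1⟩ := indec_raise D i hi m v1 hv1 m'
  obtain ⟨w2, hw2, l2⟩ := indec_raise D i hi m' v2 hv2 m
  rw [add_comm m' m] at l2
  rw [l1] at k1
  rw [l2] at k2
  rcases D.uV w1 w2 with ⟨r, hr⟩ | ⟨r, hr⟩
  · exact hw1 (indec_aux D i hi hinj hsurj A B h1 h2 (m + m') s s' r w1 w2 α β z1 z2 hαA hβB
      k1 k2 hr)
  · exact hw2 (indec_aux D i hi hinj hsurj B A (by rw [sup_comm]; exact h1)
      (by rw [inf_comm]; exact h2) (m + m') s' s r w2 w1 β α z2 z1 hβB hαA k2 k1 hr)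

end Pool.Agent.H440S
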