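import Pool.Agent.H440S.Defs

set_option autoImplicit false

namespace Pool.Agent.H440S



theorem phi_inj {R U V : Type} [Ring R] [AddCommGroup U] [Module R U] [AddCommGroup V]
    [Module R V] (D : TData R U V) : Function.Injective (phi D) := by
  rw [injective_iff_map_eq_zero]
  rintro ⟨u, v⟩ h
  have h1 : D.b u = 0 := congrArg Prod.fst h
  have h2 : D.c u + D.a v = 0 := congrArg Prod.snd h
  have hu : u = 0 := D.b_inj (by rw [h1, map_zero])
  subst hu
  rw [map_zero, zero_add] at h2
  have hv : v = 0 := D.a_inj (by rw [h2, map_zero])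
  rw [hv]
  rfl

end Pool.Agent.H440S
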