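import Pool.Agent.H440S.Defs
import Pool.Agent.H440S.P_exists_rho
import Pool.Agent.H440S.P_phi_inj
import Pool.Agent.H440S.P_indec
import Pool.Agent.H440S.P_colim

set_option autoImplicit false

namespace Pool.Agent.H440S



theorem final {R U V : Type} [Ring R] [AddCommGroup U] [Module R U] [AddCommGroup V]
    [Module R V] (D : TData R U V) :
    ∃ N N' : Submodule R (ℕ →₀ (U × V)), IsCompl N N' ∧ N ≠ ⊥ ∧
      (∀ A B : Submodule R (ℕ →₀ (U × V)), A ⊔ B = N → A ⊓ B = ⊥ → A = ⊥ ∨ B = ⊥) ∧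
      ¬ (∀ A B : Submodule R (ℕ →₀ (U × V)), A ≤ N → B ≤ N → A ≤ B ∨ B ≤ A) := by
  obtain ⟨ρ, hρ⟩ := exists_rho D
  obtain ⟨N, N', i, hc, hi, hinj, hsurj⟩ := colim (phi D) ρ (phi_inj D) hρ
  obtain ⟨u, hu⟩ : ∃ u : U, u ≠ 0 := by
    by_contra hcon
    push Not at hcon
    exact D.t_ni (fun x y _ => (hcon x).trans (hcon y).symm)
  obtain ⟨v, hv⟩ : ∃ v : V, v ≠ 0 := by
    by_contra hcon
    push Not at hcon
    exact D.w_ni (fun x y _ => (hcon x).trans (hcon y).symm)
  have hU : ∀ (r : R), ((i 0 (0, v) : N) : ℕ →₀ (U × V)) ≠ r • ((i 0 (u, 0) : N) : ℕ →₀ (U × V)) := by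
    intro r h
    have h1 : i 0 (0, v) = r • i 0 (u, 0) := Subtype.ext h
    rw [← map_smul] at h1
    have h2 := hinj 0 h1
    have h3 := congrArg Prod.snd h2
    simp only [Prod.smul_mk, smul_zero] at h3
    exact hv h3
  have hV : ∀ (r : R), ((i 0 (u, 0) : N) : ℕ →₀ (U × V)) ≠ r • ((i 0 (0, v) : N) : ℕ →₀ (U × V)) := by
    intro r h
    have h1 : i 0 (u, 0) = r • i 0 (0, v) := Subtype.ext h
    rw [← map_smul] at h1
    have h2 := hinj 0 h1
    have h3 := congrArg Prod.fst h2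
    simp only [Prod.smul_mk, smul_zero] at h3
    exact hu h3
  refine ⟨N, N', hc, ?_, ?_, ?_⟩
  · intro hN
    have h1 : ((i 0 (u, 0) : N) : ℕ →₀ (U × V)) ∈ (⊥ : Submodule R (ℕ →₀ (U × V))) := by
      rw [← hN]
      exact (i 0 (u, 0)).2
    rw [Submodule.mem_bot] at h1
    exact hV 0 (by rw [h1, zero_smul])
  · intro A B hAB hAB'
    have hA : A ≤ N := hAB ▸ le_sup_left
    have hB : B ≤ N := hAB ▸ le_sup_right
    have h1 : A.comap N.subtype ⊔ B.comap N.subtype = ⊤ := by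
      rw [eq_top_iff]
      rintro ⟨z, hz⟩ -
      have hz' := hz
      rw [← hAB] at hz'
      obtain ⟨a, ha, b, hb, hab⟩ := Submodule.mem_sup.1 hz'
      refine Submodule.mem_sup.2 ⟨⟨a, hA ha⟩, ha, ⟨b, hB hb⟩, hb, ?_⟩
      exact Subtype.ext hab
    have h2 : A.comap N.subtype ⊓ B.comap N.subtype = ⊥ := by
      rw [eq_bot_iff]
      rintro ⟨z, hz⟩ ⟨hza, hzb⟩
      have h3 : z ∈ A ⊓ B := ⟨hza, hzb⟩
      rw [hAB', Submodule.mem_bot] at h3
      rw [Submodule.mem_bot]
      exact Subtype.ext h3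
    rcases indec D i hi hinj hsurj _ _ h1 h2 with h | h
    · left
      rw [eq_bot_iff]
      intro a ha
      have h3 : (⟨a, hA ha⟩ : N) ∈ A.comap N.subtype := ha
      rw [h, Submodule.mem_bot] at h3
      rw [Submodule.mem_bot]
      exact congrArg Subtype.val h3
    · right
      rw [eq_bot_iff]
      intro a ha
      have h3 : (⟨a, hB ha⟩ : N) ∈ B.comap N.subtype := ha
      rw [h, Submodule.mem_bot] at h3
      rw [Submodule.mem_bot]
      exact congrArg Subtype.val h3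
  · intro hun
    rcases hun (Submodule.span R {((i 0 (u, 0) : N) : ℕ →₀ (U × V))})
      (Submodule.span R {((i 0 (0, v) : N) : ℕ →₀ (U × V))})
      ((Submodule.span_singleton_le_iff_mem _ _).2 (i 0 (u, 0)).2)
      ((Submodule.span_singleton_le_iff_mem _ _).2 (i 0 (0, v)).2) with h | h
    · rw [Submodule.span_singleton_le_iff_mem, Submodule.mem_span_singleton] at h
      obtain ⟨r, hr⟩ := h
      exact hV r hr.symm
    · rw [Submodule.span_singleton_le_iff_mem, Submodule.mem_span_singleton] at h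
      obtain ⟨r, hr⟩ := h
      exact hU r hr.symm

end Pool.Agent.H440S
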