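import Pool.Agent.H440S.Defs
import Pool.Agent.H440S.P_nzd
import Pool.Agent.H440S.P_ore

set_option autoImplicit false

namespace Pool.Agent.H440S



theorem frac : ∃ (F : Type) (_ : DivisionRing F) (ι : GA →+* F), Function.Injective ι ∧
    ∀ f : F, ∃ s r : GA, s ≠ 0 ∧ ι s * f = ι r := by
  classical
  haveI hz : NoZeroDivisors GA := ⟨fun {a b} h => by
    by_contra hcon
    push Not at hcon
    exact nzd a b hcon.1 hcon.2 h⟩
  have hore : ∀ (r : GA) (s : nonZeroDivisors GA),
      ∃ (r' : GA) (s' : nonZeroDivisors GA), (s' : GA) * r = r' * s := by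
    intro r s
    obtain ⟨r', s', h1, h2⟩ := ore r s (nonZeroDivisors.coe_ne_zero s)
    exact ⟨r', ⟨s', mem_nonZeroDivisors_of_ne_zero h1⟩, h2⟩
  obtain ⟨inst⟩ := OreLocalization.nonempty_oreSet_iff_of_noZeroDivisors.2 hore
  letI := inst
  refine ⟨OreLocalization (nonZeroDivisors GA) GA, inferInstance,
    OreLocalization.numeratorRingHom, OreLocalization.numeratorHom_inj ?_, ?_⟩
  · intro x hx
    exact hx.1
  · intro f
    induction f using OreLocalization.ind with
    | _ r s =>
      refine ⟨s, r, nonZeroDivisors.coe_ne_zero s, ?_⟩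
      exact OreLocalization.mul_cancel

end Pool.Agent.H440S
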