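import Pool.Agent.H440S.Defs
import Pool.Agent.H440S.P_lead_mul
import Pool.Agent.H440S.P_nzd
import Pool.Agent.H440S.P_ore

set_option autoImplicit false

namespace Pool.Agent.H440S



theorem frac_indep {F : Type} [DivisionRing F] (ι : GA →+* F) (hι : Function.Injective ι)
    (f : F) (s r s' r' : GA) (hs : s ≠ 0) (hs' : s' ≠ 0) (h : ι s * f = ι r)
    (h' : ι s' * f = ι r') (x : BG) (hlt : lead 1 r < lead x s) : lead 1 r' < lead x s' := by
  obtain ⟨p', p, hp, hpp⟩ := ore s s' hs'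
  have hp' : p' ≠ 0 := by
    intro h0
    rw [h0, zero_mul] at hpp
    exact nzd p s hp hs hpp
  have h1 : p * r = p' * r' := by
    apply hι
    rw [map_mul, map_mul, ← h, ← h', ← mul_assoc, ← mul_assoc, ← map_mul, ← map_mul, hpp]
  obtain ⟨hat, hm, -, hl⟩ := lead_mul p hp
  obtain ⟨hat', hm', -, hl'⟩ := lead_mul p' hp'
  have h2 : (lead 1 r).map hat < (lead x s).map hat := hm.withBot_map hlt
  rw [← hl, ← hl, h1, hpp, hl', hl'] at h2
  exact hm'.withBot_map.lt_iff_lt.1 h2

end Pool.Agent.H440S
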