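import Pool.Agent.H440S.Defs

set_option autoImplicit false

namespace Pool.Agent.H440S



section QQ

variable {F : Type} [AddCommGroup F]

/-- the quotient `P / (Q ∩ P)` -/
abbrev Qt (P Q : AddSubgroup F) : Type := P ⧸ (Q.addSubgroupOf P)

/-- class of an element -/
def mq (P Q : AddSubgroup F) (f : F) (hf : f ∈ P) : Qt P Q := QuotientAddGroup.mk ⟨f, hf⟩

theorem mq_eq (P Q : AddSubgroup F) {f g : F} (hf : f ∈ P) (hg : g ∈ P) :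
    mq P Q f hf = mq P Q g hg ↔ f - g ∈ Q := by
  unfold mq
  rw [QuotientAddGroup.eq, AddSubgroup.mem_addSubgroupOf]
  have : ((-(⟨f, hf⟩ : P) + ⟨g, hg⟩ : P) : F) = -(f - g) := by
    simp; abel
  rw [this, neg_mem_iff]

theorem mq_congr (P Q : AddSubgroup F) {f g : F} (hf : f ∈ P) (hg : g ∈ P) (h : f = g) :
    mq P Q f hf = mq P Q g hg := by
  subst h; rfl

theorem mq_zero (P Q : AddSubgroup F) {f : F} (hf : f ∈ P) :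
    mq P Q f hf = 0 ↔ f ∈ Q := by
  have h0 : (0 : Qt P Q) = mq P Q 0 P.zero_mem := rfl
  rw [h0, mq_eq, sub_zero]

theorem mq_ind {P Q : AddSubgroup F} (u : Qt P Q) : ∃ f, ∃ hf : f ∈ P, u = mq P Q f hf := by
  induction u using QuotientAddGroup.induction_on with
  | H x => exact ⟨x.1, x.2, rfl⟩

/-- induced map on the quotients -/
def qm (T : F →+ F) (P Q P' Q' : AddSubgroup F) (hP : ∀ f ∈ P, T f ∈ P')
    (hQ : ∀ f ∈ Q, T f ∈ Q') : Qt P Q →+ Qt P' Q' :=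
  QuotientAddGroup.map _ _ ((T.comp P.subtype).codRestrict P' (fun x => hP x x.2)) (by
    intro x hx
    rw [AddSubgroup.mem_addSubgroupOf] at hx
    rw [AddSubgroup.mem_comap, AddSubgroup.mem_addSubgroupOf]
    exact hQ _ hx)

theorem qm_mq (T : F →+ F) (P Q P' Q' : AddSubgroup F) (hP : ∀ f ∈ P, T f ∈ P')
    (hQ : ∀ f ∈ Q, T f ∈ Q') (f : F) (hf : f ∈ P) :
    qm T P Q P' Q' hP hQ (mq P Q f hf) = mq P' Q' (T f) (hP f hf) := rfl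

theorem qm_inj (T : F →+ F) (P Q P' Q' : AddSubgroup F) (hP : ∀ f ∈ P, T f ∈ P')
    (hQ : ∀ f ∈ Q, T f ∈ Q') (h : ∀ f ∈ P, T f ∈ Q' → f ∈ Q) :
    Function.Injective (qm T P Q P' Q' hP hQ) := by
  rw [injective_iff_map_eq_zero]
  intro u hu
  obtain ⟨f, hf, rfl⟩ := mq_ind u
  rw [qm_mq, mq_zero] at hu
  rw [mq_zero]
  exact h f hf hu

theorem qm_not_surj (T : F →+ F) (P Q P' Q' : AddSubgroup F) (hP : ∀ f ∈ P, T f ∈ P')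
    (hQ : ∀ f ∈ Q, T f ∈ Q') (h : ∃ m ∈ P', ∀ f ∈ P, T f - m ∉ Q') :
    ¬ Function.Surjective (qm T P Q P' Q' hP hQ) := by
  intro hs
  obtain ⟨m, hm, hm'⟩ := h
  obtain ⟨u, hu⟩ := hs (mq P' Q' m hm)
  obtain ⟨f, hf, rfl⟩ := mq_ind u
  rw [qm_mq, mq_eq] at hu
  exact hm' f hf hu

theorem qm_surj (T : F →+ F) (P Q P' Q' : AddSubgroup F) (hP : ∀ f ∈ P, T f ∈ P')
    (hQ : ∀ f ∈ Q, T f ∈ Q') (h : ∀ m ∈ P', ∃ f ∈ P, T f - m ∈ Q') :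
    Function.Surjective (qm T P Q P' Q' hP hQ) := by
  intro u
  obtain ⟨m, hm, rfl⟩ := mq_ind u
  obtain ⟨f, hf, hf'⟩ := h m hm
  refine ⟨mq P Q f hf, ?_⟩
  rw [qm_mq, mq_eq]
  exact hf'

theorem qm_not_inj (T : F →+ F) (P Q P' Q' : AddSubgroup F) (hP : ∀ f ∈ P, T f ∈ P')
    (hQ : ∀ f ∈ Q, T f ∈ Q') (h : ∃ f ∈ P, f ∉ Q ∧ T f ∈ Q') :
    ¬ Function.Injective (qm T P Q P' Q' hP hQ) := by
  intro hs
  obtain ⟨f, hf, hf0, hf'⟩ := h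
  rw [injective_iff_map_eq_zero] at hs
  apply hf0
  rw [← mq_zero P Q hf]
  apply hs
  rw [qm_mq, mq_zero]
  exact hf'

end QQ

/-- the underlying groups and maps -/
noncomputable def gbase (E : EData) : GBase where
  U := Qt E.M5 E.M0
  V := Qt E.M6 E.M2
  b := qm (AddMonoidHom.mulLeft E.b) E.M5 E.M0 E.M5 E.M0 E.hb5 E.hb0
  t := qm (AddMonoidHom.mulLeft E.t) E.M5 E.M0 E.M5 E.M0 E.ht5 E.ht0
  π := qm (AddMonoidHom.mulLeft E.π) E.M5 E.M0 E.M5 E.M0 E.hπ5 E.hπ0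
  a := qm (AddMonoidHom.mulLeft E.a) E.M6 E.M2 E.M6 E.M2 E.ha6 E.ha2
  w := qm (AddMonoidHom.mulLeft E.w) E.M6 E.M2 E.M6 E.M2 E.hw6 E.hw2
  c := qm (AddMonoidHom.id E.F) E.M5 E.M0 E.M6 E.M2 (fun _ h => E.h56 h) (fun _ h => E.h02 h)
  y := qm ((AddMonoidHom.mulLeft E.t).comp (AddMonoidHom.mulLeft E.b)) E.M6 E.M2 E.M5 E.M0
    E.hy6 E.hy2

theorem gcompat (E : EData) (r : E.F) (h0 : ∀ g ∈ E.M0, g * r ∈ E.M0)
    (h2 : ∀ g ∈ E.M2, g * r ∈ E.M2) (h5 : ∀ g ∈ E.M5, g * r ∈ E.M5)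
    (h6 : ∀ g ∈ E.M6, g * r ∈ E.M6) :
    (gbase E).Compat (qm (AddMonoidHom.mulRight r) E.M5 E.M0 E.M5 E.M0 h5 h0)
      (qm (AddMonoidHom.mulRight r) E.M6 E.M2 E.M6 E.M2 h6 h2) := by
  refine ⟨?_, ?_, ?_, ?_, ?_, ?_, ?_⟩
  · intro u
    obtain ⟨f, hf, rfl⟩ := mq_ind u
    exact mq_congr E.M5 E.M0 (h5 _ (E.hb5 _ hf)) (E.hb5 _ (h5 _ hf)) (mul_assoc _ _ _)
  · intro u
    obtain ⟨f, hf, rfl⟩ := mq_ind u
    exact mq_congr E.M5 E.M0 (h5 _ (E.ht5 _ hf)) (E.ht5 _ (h5 _ hf)) (mul_assoc _ _ _)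
  · intro u
    obtain ⟨f, hf, rfl⟩ := mq_ind u
    exact mq_congr E.M5 E.M0 (h5 _ (E.hπ5 _ hf)) (E.hπ5 _ (h5 _ hf)) (mul_assoc _ _ _)
  · intro u
    obtain ⟨f, hf, rfl⟩ := mq_ind u
    exact mq_congr E.M6 E.M2 (h6 _ (E.ha6 _ hf)) (E.ha6 _ (h6 _ hf)) (mul_assoc _ _ _)
  · intro u
    obtain ⟨f, hf, rfl⟩ := mq_ind u
    exact mq_congr E.M6 E.M2 (h6 _ (E.hw6 _ hf)) (E.hw6 _ (h6 _ hf)) (mul_assoc _ _ _)
  · intro u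
    obtain ⟨f, hf, rfl⟩ := mq_ind u
    exact mq_congr E.M6 E.M2 (h6 _ (E.h56 hf)) (E.h56 (h5 _ hf)) rfl
  · intro u
    obtain ⟨f, hf, rfl⟩ := mq_ind u
    refine mq_congr E.M5 E.M0 (h5 _ (E.hy6 _ hf)) (E.hy6 _ (h6 _ hf)) ?_
    rw [mul_assoc, mul_assoc]

theorem gdata (E : EData) : Nonempty GData := by
  refine ⟨{ gbase E with
    uU := ?_, uV := ?_, b_inj := ?_, b_ns := ?_, t_surj := ?_, t_ni := ?_, a_inj := ?_,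
    a_ns := ?_, w_surj := ?_, w_ni := ?_, tb := ?_, ya := ?_, wc := ?_, wa := ?_, πb := ?_,
    πt := ?_, cπ := ?_, πy := ?_, ππ := ?_, k := mq E.M5 E.M0 E.k E.k5, k1 := ?_, k2 := ?_ }⟩
  · intro u u'
    obtain ⟨f, hf, rfl⟩ := mq_ind u
    obtain ⟨f', hf', rfl⟩ := mq_ind u'
    obtain ⟨r, h0, h2, h5, h6, h⟩ := E.tot f f'
    refine ⟨_, _, gcompat E r h0 h2 h5 h6, ?_⟩
    rcases h with h | h
    · left
      exact mq_congr E.M5 E.M0 hf' (h5 _ hf) h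
    · right
      exact mq_congr E.M5 E.M0 hf (h5 _ hf') h
  · intro u u'
    obtain ⟨f, hf, rfl⟩ := mq_ind u
    obtain ⟨f', hf', rfl⟩ := mq_ind u'
    obtain ⟨r, h0, h2, h5, h6, h⟩ := E.tot f f'
    refine ⟨_, _, gcompat E r h0 h2 h5 h6, ?_⟩
    rcases h with h | h
    · left
      exact mq_congr E.M6 E.M2 hf' (h6 _ hf) h
    · right
      exact mq_congr E.M6 E.M2 hf (h6 _ hf') h
  · exact qm_inj _ _ _ _ _ E.hb5 E.hb0 E.b_inj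
  · exact qm_not_surj _ _ _ _ _ E.hb5 E.hb0 E.b_ns
  · exact qm_surj _ _ _ _ _ E.ht5 E.ht0 E.t_surj
  · exact qm_not_inj _ _ _ _ _ E.ht5 E.ht0 E.t_ni
  · exact qm_inj _ _ _ _ _ E.ha6 E.ha2 E.a_inj
  · exact qm_not_surj _ _ _ _ _ E.ha6 E.ha2 E.a_ns
  · exact qm_surj _ _ _ _ _ E.hw6 E.hw2 E.w_surj
  · exact qm_not_inj _ _ _ _ _ E.hw6 E.hw2 E.w_ni
  · intro u
    obtain ⟨f, hf, rfl⟩ := mq_ind u
    rfl
  · intro u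
    obtain ⟨f, hf, rfl⟩ := mq_ind u
    exact (mq_zero E.M5 E.M0 (E.hy6 _ (E.ha6 _ hf))).2 (E.ya f hf)
  · intro u
    obtain ⟨f, hf, rfl⟩ := mq_ind u
    exact (mq_zero E.M6 E.M2 (E.hw6 _ (E.h56 hf))).2 (E.wc f hf)
  · intro u
    obtain ⟨f, hf, rfl⟩ := mq_ind u
    exact (mq_zero E.M6 E.M2 (E.hw6 _ (E.ha6 _ hf))).2 (E.wa f hf)
  · intro u
    obtain ⟨f, hf, rfl⟩ := mq_ind u
    exact (mq_eq E.M5 E.M0 (E.hπ5 _ (E.hb5 _ hf)) (E.hb5 _ (E.hπ5 _ hf))).2 (E.πb f hf)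
  · intro u
    obtain ⟨f, hf, rfl⟩ := mq_ind u
    exact (mq_eq E.M5 E.M0 (E.hπ5 _ (E.ht5 _ hf)) (E.ht5 _ (E.hπ5 _ hf))).2 (E.πt f hf)
  · intro u
    obtain ⟨f, hf, rfl⟩ := mq_ind u
    exact (mq_zero E.M6 E.M2 (E.h56 (E.hπ5 _ hf))).2 (E.πc f hf)
  · intro u
    obtain ⟨f, hf, rfl⟩ := mq_ind u
    exact (mq_zero E.M5 E.M0 (E.hπ5 _ (E.hy6 _ hf))).2 (E.πy f hf)
  · intro u
    obtain ⟨f, hf, rfl⟩ := mq_ind u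
    exact (mq_zero E.M5 E.M0 (E.hπ5 _ (E.hπ5 _ hf))).2 (E.ππ f hf)
  · obtain ⟨u, hu, hu'⟩ := E.k1
    exact ⟨mq E.M5 E.M0 u hu, (mq_eq E.M5 E.M0 (E.hb5 _ E.k5) (E.hπ5 _ hu)).2 hu'⟩
  · intro v h
    obtain ⟨f, hf, rfl⟩ := mq_ind v
    exact E.k2 f hf ((mq_eq E.M6 E.M2 (E.h56 E.k5) (E.ha6 _ hf)).1 h)

end Pool.Agent.H440S
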