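import Pool.Agent.H440S.Defs

set_option autoImplicit false

namespace Pool.Agent.H440S



theorem lead_add_le (x : BG) (p q : GA) : lead x (p + q) ≤ max (lead x p) (lead x q) := by
  unfold lead
  apply Finset.sup_le
  intro g hg
  have h1 : (p + q).coeff = p.coeff + q.coeff := rfl
  rw [h1] at hg
  rcases Finset.mem_union.1 (Finsupp.support_add hg) with h | h
  · exact le_max_of_le_left (Finset.le_sup (f := fun g => ((g * x : BG) : WithBot BG)) h)
  · exact le_max_of_le_right (Finset.le_sup (f := fun g => ((g * x : BG) : WithBot BG)) h)

end Pool.Agent.H440S
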