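import Pool.Agent.H440S.Defs
import Pool.Agent.H440S.P_lead_add_le
import Pool.Agent.H440S.P_lead_mul
import Pool.Agent.H440S.P_common_den
import Pool.Agent.H440S.P_frac_indep

set_option autoImplicit false

namespace Pool.Agent.H440S



theorem inM_add {F : Type} [DivisionRing F] (ι : GA →+* F) (hι : Function.Injective ι)
    (hf : ∀ f : F, ∃ s r : GA, s ≠ 0 ∧ ι s * f = ι r) (c : ℚ) (f g : F)
    (h1 : InM ι c f) (h2 : InM ι c g) : InM ι c (f + g) := by
  obtain ⟨x, s, r, hx, hs, hsr, hl⟩ := h1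
  obtain ⟨x', s', r', hx', hs', hsr', hl'⟩ := h2
  obtain ⟨d, p, q, hd, hp, hq⟩ := common_den ι hι hf f g
  have l1 : lead 1 p < lead x d := frac_indep ι hι f s r d p hs hd hsr hp x hl
  have l2 : lead 1 q < lead x' d := frac_indep ι hι g s' r' d q hs' hd hsr' hq x' hl'
  obtain ⟨hat, hm, hlead, -⟩ := lead_mul d hd
  refine ⟨max x x', d, p + q, ?_, hd, ?_, ?_⟩
  · rcases le_total x x' with h | h
    · rw [max_eq_right h]; exact hx'
    · rw [max_eq_left h]; exact hx
  · rw [mul_add, hp, hq, map_add]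
  · refine (lead_add_le 1 p q).trans_lt (max_lt ?_ ?_)
    · refine l1.trans_le ?_
      rw [hlead, hlead, WithBot.coe_le_coe]
      exact hm.monotone (le_max_left _ _)
    · refine l2.trans_le ?_
      rw [hlead, hlead, WithBot.coe_le_coe]
      exact hm.monotone (le_max_right _ _)

end Pool.Agent.H440S
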