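import Pool.Agent.H440S.Defs

set_option autoImplicit false

namespace Pool.Agent.H440S



theorem lead_single (x g : BG) (a : ℚ) (ha : a ≠ 0) :
    lead x (MonoidAlgebra.single g a : GA) = ((g * x : BG) : WithBot BG) := by
  unfold lead
  have h1 : (MonoidAlgebra.single g a : GA).coeff = Finsupp.single g a := rfl
  rw [h1, Finsupp.support_single_ne_zero g ha, Finset.sup_singleton]

end Pool.Agent.H440S
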