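import Pool.Agent.H440S.Defs
import Pool.Agent.H440S.P_lead_single
import Pool.Agent.H440S.P_lead_mul

set_option autoImplicit false

namespace Pool.Agent.H440S



theorem inM_aff_aux {F : Type} [DivisionRing F] (ι : GA →+* F) (g : BG) (c : ℚ) (f : F)
    (h : InM ι c f) : InM ι (g.s + 2 ^ g.i * c) (ι (MonoidAlgebra.single g 1) * f) := by
  obtain ⟨x, s, r, hx, hs, hsf, hl⟩ := h
  obtain ⟨hat, hmono, h1, h2⟩ := lead_mul s hs
  have hss : s * MonoidAlgebra.single g⁻¹ 1 * MonoidAlgebra.single g 1 = s := by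
    rw [mul_assoc, MonoidAlgebra.single_mul_single, inv_mul_cancel, one_mul]
    exact mul_one s
  refine ⟨g * x, s * MonoidAlgebra.single g⁻¹ 1, r, ?_, ?_, ?_, ?_⟩
  · rw [BG.mul_s]
    have h3 : (0:ℚ) < 2 ^ g.i := zpow_pos (by norm_num) _
    have := mul_lt_mul_of_pos_left hx h3
    linarith
  · intro h0
    rw [h0, zero_mul] at hss
    exact hs hss.symm
  · rw [← mul_assoc, ← map_mul, hss]
    exact hsf
  · rw [h2, lead_single _ _ _ one_ne_zero, inv_mul_cancel_left, WithBot.map_coe, ← h1]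
    exact hl

end Pool.Agent.H440S
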