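import Pool.Agent.H440S.Defs
import Pool.Agent.H440S.P_inM_aff_aux

set_option autoImplicit false

namespace Pool.Agent.H440S



theorem inM_aff {F : Type} [DivisionRing F] (ι : GA →+* F) (g : BG) (c : ℚ) (f : F) :
    InM ι (g.s + 2 ^ g.i * c) (ι (MonoidAlgebra.single g 1) * f) ↔ InM ι c f := by
  constructor
  · intro h
    have h1 := inM_aff_aux ι g⁻¹ _ _ h
    have h2 : ι (MonoidAlgebra.single g⁻¹ 1) * (ι (MonoidAlgebra.single g 1) * f) = f := by
      rw [← mul_assoc, ← map_mul, MonoidAlgebra.single_mul_single, inv_mul_cancel, one_mul]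
      have h3 : (MonoidAlgebra.single (1 : BG) (1 : ℚ) : GA) = 1 := rfl
      rw [h3, map_one, one_mul]
    have h4 : (g⁻¹).s + 2 ^ (g⁻¹).i * (g.s + 2 ^ g.i * c) = c := by
      rw [BG.inv_s, BG.inv_i, zpow_neg]
      have h5 : (2 : ℚ) ^ g.i ≠ 0 := zpow_ne_zero _ two_ne_zero
      field_simp
      ring
    rw [h2, h4] at h1
    exact h1
  · exact inM_aff_aux ι g c f

end Pool.Agent.H440S
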