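import Pool.Agent.H440S.Defs

set_option autoImplicit false

namespace Pool.Agent.H440S



theorem inM_mono {F : Type} [DivisionRing F] (ι : GA →+* F) (c d : ℚ) (hcd : c ≤ d) (f : F)
    (h1 : InM ι c f) : InM ι d f := by
  obtain ⟨x, s, r, h2, h3, h4, h5⟩ := h1
  exact ⟨x, s, r, lt_of_lt_of_le h2 hcd, h3, h4, h5⟩

end Pool.Agent.H440S
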