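import Pool.Agent.H440S.Defs

set_option autoImplicit false

namespace Pool.Agent.H440S



theorem lead_neg (x : BG) (p : GA) : lead x (-p) = lead x p := by
  have h : (-p).coeff = - p.coeff := by
    rfl
  unfold lead
  rw [h, Finsupp.support_neg]

end Pool.Agent.H440S
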