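import Pool.Agent.H440S.Defs
import Pool.Agent.H440S.P_lead_neg

set_option autoImplicit false

namespace Pool.Agent.H440S



theorem inM_neg {F : Type} [DivisionRing F] (ι : GA →+* F) (c : ℚ) (f : F)
    (h1 : InM ι c f) : InM ι c (-f) := by
  obtain ⟨x, s, r, hx, hs, he, hl⟩ := h1
  refine ⟨x, s, -r, hx, hs, ?_, ?_⟩
  · rw [mul_neg, he, map_neg]
  · rw [lead_neg]; exact hl

end Pool.Agent.H440S
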