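import Pool.Agent.H440S.Defs
import Pool.Agent.H440S.P_lead_single

set_option autoImplicit false

namespace Pool.Agent.H440S



theorem inM_one {F : Type} [DivisionRing F] (ι : GA →+* F) (c : ℚ) (hc : 0 < c) :
    InM ι c (1 : F) := by
  refine ⟨⟨c / 2, 0⟩, 1, 1, ?_, one_ne_zero, by simp, ?_⟩
  · show c / 2 < c
    linarith
  · have h1 : lead 1 (1 : GA) = ((1 * 1 : BG) : WithBot BG) := lead_single 1 1 1 one_ne_zero
    have h2 : lead ⟨c / 2, 0⟩ (1 : GA) = ((1 * ⟨c / 2, 0⟩ : BG) : WithBot BG) :=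
      lead_single ⟨c / 2, 0⟩ 1 1 one_ne_zero
    rw [h1, h2, WithBot.coe_lt_coe, BG.lt_iff]
    left
    simp only [one_mul, BG.one_s]
    linarith

end Pool.Agent.H440S
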