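import Pool.Agent.H440S.Defs
import Pool.Agent.H440S.P_lead_mul

set_option autoImplicit false

namespace Pool.Agent.H440S



theorem inM_one_not {F : Type} [DivisionRing F] (ι : GA →+* F) (hι : Function.Injective ι) :
    ¬ InM ι 0 (1 : F) := by
  rintro ⟨x, s, r, hx, hs, h, hlead⟩
  rw [mul_one] at h
  have hsr : s = r := hι h
  subst hsr
  obtain ⟨hat, hmono, hhat, -⟩ := lead_mul s hs
  rw [hhat 1, hhat x, WithBot.coe_lt_coe, hmono.lt_iff_lt, BG.lt_iff, BG.one_s] at hlead
  rcases hlead with h1 | ⟨h1, -⟩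
  · exact absurd hx (not_lt.2 h1.le)
  · exact absurd hx (not_lt.2 h1.le)
end Pool.Agent.H440S
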