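import Pool.Agent.H440S.Defs
import Pool.Agent.H440S.P_lead_mul
import Pool.Agent.H440S.P_nzd
import Pool.Agent.H440S.P_ore
import Pool.Agent.H440S.P_common_den
import Pool.Agent.H440S.P_frac_indep

set_option autoImplicit false

namespace Pool.Agent.H440S



theorem inM_tot {F : Type} [DivisionRing F] (ι : GA →+* F) (hι : Function.Injective ι)
    (hf : ∀ f : F, ∃ s r : GA, s ≠ 0 ∧ ι s * f = ι r) (f f' : F) :
    (∀ (h : F) (c : ℚ), InM ι c (h * f) → InM ι c (h * f')) ∨
    (∀ (h : F) (c : ℚ), InM ι c (h * f') → InM ι c (h * f)) := by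
  have claim : ∀ (g g' : F) (d p p' : GA), d ≠ 0 → ι d * g = ι p → ι d * g' = ι p' →
      lead 1 p' ≤ lead 1 p → ∀ (h : F) (c : ℚ), InM ι c (h * g) → InM ι c (h * g') := by
    intro g g' d p p' hd hp hp' hle h c hin
    obtain ⟨x, s0, r0, hx, hs0, h1, hlt⟩ := hin
    obtain ⟨t, r, ht, hr⟩ := hf h
    obtain ⟨r', s', hs', e⟩ := ore r d hd
    have e0 : ι (s' * t) * h = ι r' * ι d := by
      rw [map_mul, mul_assoc, hr, ← map_mul, e, map_mul]
    have e1 : ι (s' * t) * (h * g) = ι (r' * p) := by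
      rw [← mul_assoc, e0, mul_assoc, hp, map_mul]
    have e2 : ι (s' * t) * (h * g') = ι (r' * p') := by
      rw [← mul_assoc, e0, mul_assoc, hp', map_mul]
    have hst : s' * t ≠ 0 := nzd _ _ hs' ht
    have hlt' : lead 1 (r' * p) < lead x (s' * t) :=
      frac_indep ι hι (h * g) s0 r0 (s' * t) (r' * p) hs0 hst h1 e1 x hlt
    refine ⟨x, s' * t, r' * p', hx, hst, e2, lt_of_le_of_lt ?_ hlt'⟩
    by_cases hr' : r' = 0
    · rw [hr', zero_mul, zero_mul]
    · obtain ⟨hat, hmono, -, hmul⟩ := lead_mul r' hr'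
      rw [hmul, hmul]
      exact (WithBot.monotone_map_iff.2 hmono.monotone) hle
  obtain ⟨d, p, p', hd, hp, hp'⟩ := common_den ι hι hf f f'
  rcases le_total (lead 1 p') (lead 1 p) with h | h
  · left
    exact claim f f' d p p' hd hp hp' h
  · right
    exact claim f' f d p' p hd hp' hp h

end Pool.Agent.H440S
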