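import Pool.Agent.H440S.Defs
import Pool.Agent.H440S.P_lead_eq_bot

set_option autoImplicit false

namespace Pool.Agent.H440S



theorem inM_zero {F : Type} [DivisionRing F] (ι : GA →+* F) (c : ℚ) : InM ι c 0 := by
  refine ⟨⟨c - 1, 0⟩, 1, 0, by simp, one_ne_zero, by simp, ?_⟩
  have h1 : lead 1 (0 : GA) = ⊥ := (lead_eq_bot 1 0).2 rfl
  rw [h1, bot_lt_iff_ne_bot]
  intro h
  exact one_ne_zero ((lead_eq_bot _ 1).1 h)

end Pool.Agent.H440S
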