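import Pool.Agent.H440S.Defs

set_option autoImplicit false

namespace Pool.Agent.H440S



theorem serial {R U V : Type} [Ring R] [AddCommGroup U] [Module R U] [AddCommGroup V]
    [Module R V]
    (hU : ∀ u u' : U, (∃ r : R, u = r • u') ∨ (∃ r : R, u' = r • u))
    (hV : ∀ v v' : V, (∃ r : R, v = r • v') ∨ (∃ r : R, v' = r • v)) :
    ∃ (ι : Type) (S : ι → Submodule R (ℕ →₀ (U × V))),
          iSupIndep S ∧ (⨆ i, S i) = ⊤ ∧
          ∀ i, ∀ A B : Submodule R (ℕ →₀ (U × V)), A ≤ S i → B ≤ S i → A ≤ B ∨ B ≤ A := by
  classical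
  let q : Bool → ((U × V) →ₗ[R] (U × V)) := fun b =>
    if b then (LinearMap.inl R U V).comp (LinearMap.fst R U V)
      else (LinearMap.inr R U V).comp (LinearMap.snd R U V)
  have q1 : ∀ x : U × V, q true x = (x.1, 0) := fun x => by simp [q]
  have q2 : ∀ x : U × V, q false x = (0, x.2) := fun x => by simp [q]
  let p : ℕ × Bool → ((ℕ →₀ (U × V)) →ₗ[R] (ℕ →₀ (U × V))) := fun i =>
    (Finsupp.lsingle i.1).comp ((q i.2).comp (Finsupp.lapply i.1))
  have p1 : ∀ i x, p i x = Finsupp.single i.1 (q i.2 (x i.1)) := fun i x => by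
    simp only [p, LinearMap.comp_apply, Finsupp.lsingle_apply, Finsupp.lapply_apply]
  have qq : ∀ a b : Bool, ∀ x, q a (q b x) = if a = b then q b x else 0 := by
    intro a b x
    cases a <;> cases b <;> simp [q1, q2]
  have pp : ∀ i j x, p i (p j x) = if i = j then p j x else 0 := by
    intro i j x
    rw [p1, p1]
    by_cases h : i.1 = j.1
    · rw [h, Finsupp.single_eq_same, qq]
      by_cases h2 : i.2 = j.2
      · have : i = j := Prod.ext h h2
        simp [h2, this]
      · have : i ≠ j := fun hh => h2 (by rw [hh])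
        simp [h2, this]
    · have hne : i ≠ j := fun hh => h (by rw [hh])
      have : (Finsupp.single j.1 (q j.2 (x j.1))) i.1 = 0 := by
        rw [Finsupp.single_apply, if_neg (fun hh => h hh.symm)]
      rw [this, map_zero, Finsupp.single_zero, if_neg hne]
  refine ⟨ℕ × Bool, fun i => LinearMap.range (p i), ?_, ?_, ?_⟩
  · rw [iSupIndep_def]
    intro i
    rw [Submodule.disjoint_def]
    rintro x ⟨z, rfl⟩ hx2
    have hle : (⨆ (j) (_ : j ≠ i), LinearMap.range (p j)) ≤ LinearMap.ker (p i) := by
      refine iSup_le fun j => iSup_le fun hj => ?_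
      rintro _ ⟨y, rfl⟩
      rw [LinearMap.mem_ker, pp, if_neg (Ne.symm hj)]
    have := hle hx2
    rw [LinearMap.mem_ker, pp, if_pos rfl] at this
    exact this
  · rw [eq_top_iff]
    rintro x -
    induction x using Finsupp.induction_linear with
    | zero => exact Submodule.zero_mem _
    | add f g hf hg => exact Submodule.add_mem _ hf hg
    | single n w =>
      have : Finsupp.single n w = p (n, true) (Finsupp.single n w) + p (n, false) (Finsupp.single n w) := by
        rw [p1, p1]
        simp only [Finsupp.single_eq_same, q1, q2]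
        rw [← Finsupp.single_add]
        simp
      rw [this]
      exact Submodule.add_mem _ (Submodule.mem_iSup_of_mem (n, true) ⟨_, rfl⟩)
        (Submodule.mem_iSup_of_mem (n, false) ⟨_, rfl⟩)
  · rintro ⟨n, b⟩ A B hA hB
    by_contra hcon
    rw [not_or] at hcon
    obtain ⟨h1, h2⟩ := hcon
    obtain ⟨x, hxA, hxB⟩ := SetLike.not_le_iff_exists.mp h1
    obtain ⟨y, hyB, hyA⟩ := SetLike.not_le_iff_exists.mp h2
    obtain ⟨x', hx'⟩ := hA hxA
    obtain ⟨y', hy'⟩ := hB hyB
    rw [p1] at hx' hy'
    simp only at hx' hy'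
    cases b
    · rw [q2] at hx' hy'
      rcases hV (x' n).2 (y' n).2 with ⟨r, hr⟩ | ⟨r, hr⟩
      · apply hxB
        have : x = r • y := by
          rw [← hx', ← hy', Finsupp.smul_single, hr]
          simp
        rw [this]
        exact B.smul_mem r hyB
      · apply hyA
        have : y = r • x := by
          rw [← hx', ← hy', Finsupp.smul_single, hr]
          simp
        rw [this]
        exact A.smul_mem r hxA
    · rw [q1] at hx' hy'
      rcases hU (x' n).1 (y' n).1 with ⟨r, hr⟩ | ⟨r, hr⟩
      · apply hxB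
        have : x = r • y := by
          rw [← hx', ← hy', Finsupp.smul_single, hr]
          simp
        rw [this]
        exact B.smul_mem r hyB
      · apply hyA
        have : y = r • x := by
          rw [← hx', ← hy', Finsupp.smul_single, hr]
          simp
        rw [this]
        exact A.smul_mem r hxA

end Pool.Agent.H440S
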