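import Pool.Agent.H440S.Defs

set_option autoImplicit false

namespace Pool.Agent.H440S



/-- the ring of all compatible pairs -/
def tdata_S (D : GBase) : Subring (AddMonoid.End D.U × AddMonoid.End D.V) where
  carrier := {p | D.Compat p.1 p.2}
  mul_mem' := by
    rintro ⟨ρ₁, σ₁⟩ ⟨ρ₂, σ₂⟩ ⟨h1, h2, h3, h4, h5, h6, h7⟩ ⟨k1, k2, k3, k4, k5, k6, k7⟩
    exact ⟨fun u => (congrArg (fun z => ρ₁ z) (k1 u)).trans (h1 (ρ₂ u)),
      fun u => (congrArg (fun z => ρ₁ z) (k2 u)).trans (h2 (ρ₂ u)),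
      fun u => (congrArg (fun z => ρ₁ z) (k3 u)).trans (h3 (ρ₂ u)),
      fun v => (congrArg (fun z => σ₁ z) (k4 v)).trans (h4 (σ₂ v)),
      fun v => (congrArg (fun z => σ₁ z) (k5 v)).trans (h5 (σ₂ v)),
      fun u => (congrArg (fun z => σ₁ z) (k6 u)).trans (h6 (ρ₂ u)),
      fun v => (congrArg (fun z => ρ₁ z) (k7 v)).trans (h7 (σ₂ v))⟩
  one_mem' := ⟨fun _ => rfl, fun _ => rfl, fun _ => rfl, fun _ => rfl, fun _ => rfl,
    fun _ => rfl, fun _ => rfl⟩
  add_mem' := by
    rintro ⟨ρ₁, σ₁⟩ ⟨ρ₂, σ₂⟩ ⟨h1, h2, h3, h4, h5, h6, h7⟩ ⟨k1, k2, k3, k4, k5, k6, k7⟩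
    exact ⟨fun u => (congrArg₂ (· + ·) (h1 u) (k1 u)).trans (map_add D.b _ _).symm,
      fun u => (congrArg₂ (· + ·) (h2 u) (k2 u)).trans (map_add D.t _ _).symm,
      fun u => (congrArg₂ (· + ·) (h3 u) (k3 u)).trans (map_add D.π _ _).symm,
      fun u => (congrArg₂ (· + ·) (h4 u) (k4 u)).trans (map_add D.a _ _).symm,
      fun u => (congrArg₂ (· + ·) (h5 u) (k5 u)).trans (map_add D.w _ _).symm,
      fun u => (congrArg₂ (· + ·) (h6 u) (k6 u)).trans (map_add D.c _ _).symm,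
      fun u => (congrArg₂ (· + ·) (h7 u) (k7 u)).trans (map_add D.y _ _).symm⟩
  zero_mem' := ⟨fun _ => (map_zero D.b).symm, fun _ => (map_zero D.t).symm,
    fun _ => (map_zero D.π).symm, fun _ => (map_zero D.a).symm, fun _ => (map_zero D.w).symm,
    fun _ => (map_zero D.c).symm, fun _ => (map_zero D.y).symm⟩
  neg_mem' := by
    rintro ⟨ρ₁, σ₁⟩ ⟨h1, h2, h3, h4, h5, h6, h7⟩
    exact ⟨fun u => (congrArg Neg.neg (h1 u)).trans (map_neg D.b _).symm,
      fun u => (congrArg Neg.neg (h2 u)).trans (map_neg D.t _).symm,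
      fun u => (congrArg Neg.neg (h3 u)).trans (map_neg D.π _).symm,
      fun u => (congrArg Neg.neg (h4 u)).trans (map_neg D.a _).symm,
      fun u => (congrArg Neg.neg (h5 u)).trans (map_neg D.w _).symm,
      fun u => (congrArg Neg.neg (h6 u)).trans (map_neg D.c _).symm,
      fun u => (congrArg Neg.neg (h7 u)).trans (map_neg D.y _).symm⟩

/-- the module structure on `U` -/
@[reducible] def tdata_U (D : GBase) : Module (tdata_S D) D.U :=
  Module.compHom D.U ((RingHom.fst (AddMonoid.End D.U) (AddMonoid.End D.V)).comp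
    (tdata_S D).subtype)

/-- the module structure on `V` -/
@[reducible] def tdata_V (D : GBase) : Module (tdata_S D) D.V :=
  Module.compHom D.V ((RingHom.snd (AddMonoid.End D.U) (AddMonoid.End D.V)).comp
    (tdata_S D).subtype)

theorem tdata (D : GData) : ∃ (R : Type) (_ : Ring R) (_ : Module R D.U) (_ : Module R D.V),
    Nonempty (TData R D.U D.V) := by
  refine ⟨tdata_S D.toGBase, inferInstance, tdata_U D.toGBase, tdata_V D.toGBase, ?_⟩
  letI := tdata_U D.toGBase
  letI := tdata_V D.toGBase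
  refine ⟨{
    uU := ?_
    uV := ?_
    ε := ⟨(D.π, 0), ⟨D.πb, D.πt, fun _ => rfl, fun _ => (map_zero D.a).symm,
      fun _ => (map_zero D.w).symm, fun u => (D.cπ u).symm,
      fun v => (D.πy v).trans (map_zero D.y).symm⟩⟩
    central := ?_
    εV := fun _ => rfl
    εεU := fun u => D.ππ u
    b := { toFun := D.b, map_add' := map_add D.b, map_smul' := fun r u => (r.2.1 u).symm }
    t := { toFun := D.t, map_add' := map_add D.t, map_smul' := fun r u => (r.2.2.1 u).symm }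
    a := { toFun := D.a, map_add' := map_add D.a, map_smul' := fun r v => (r.2.2.2.2.1 v).symm }
    w := { toFun := D.w, map_add' := map_add D.w, map_smul' := fun r v => (r.2.2.2.2.2.1 v).symm }
    c := { toFun := D.c, map_add' := map_add D.c,
           map_smul' := fun r u => (r.2.2.2.2.2.2.1 u).symm }
    y := { toFun := D.y, map_add' := map_add D.y,
           map_smul' := fun r v => (r.2.2.2.2.2.2.2 v).symm }
    b_inj := D.b_inj
    b_ns := D.b_ns
    t_surj := D.t_surj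
    t_ni := D.t_ni
    a_inj := D.a_inj
    a_ns := D.a_ns
    w_surj := D.w_surj
    w_ni := D.w_ni
    tb := D.tb
    ya := D.ya
    wc := D.wc
    wa := D.wa
    k := D.k
    k1 := D.k1
    k2 := D.k2 }⟩
  · intro u u'
    obtain ⟨ρ, σ, h, h' | h'⟩ := D.uU u u'
    · right
      exact ⟨⟨(ρ, σ), h⟩, h'⟩
    · left
      exact ⟨⟨(ρ, σ), h⟩, h'⟩
  · intro v v'
    obtain ⟨ρ, σ, h, h' | h'⟩ := D.uV v v'
    · right
      exact ⟨⟨(ρ, σ), h⟩, h'⟩
    · left
      exact ⟨⟨(ρ, σ), h⟩, h'⟩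
  · intro r
    apply Subtype.ext
    apply Prod.ext
    · apply AddMonoidHom.ext
      intro u
      exact (r.2.2.2.1 u).symm
    · apply AddMonoidHom.ext
      intro v
      exact (map_zero r.1.2).symm

end Pool.Agent.H440S
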