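import Pool.Agent.H440S.Defs
import Pool.Agent.H440S.P_frac
import Pool.Agent.H440S.P_inM_zero
import Pool.Agent.H440S.P_inM_add
import Pool.Agent.H440S.P_inM_neg
import Pool.Agent.H440S.P_inM_mono
import Pool.Agent.H440S.P_inM_aff
import Pool.Agent.H440S.P_inM_tot
import Pool.Agent.H440S.P_inM_one_not
import Pool.Agent.H440S.P_inM_one

set_option autoImplicit false

namespace Pool.Agent.H440S



theorem vdata_exists : Nonempty VData := by
  obtain ⟨F, inst, ι, hι, hf⟩ := frac
  let _ := inst
  let M : ℚ → AddSubgroup F := fun c =>
    { carrier := {f | InM ι c f}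
      add_mem' := fun {f g} h1 h2 => inM_add ι hι hf c f g h1 h2
      zero_mem' := inM_zero ι c
      neg_mem' := fun {f} h1 => inM_neg ι c f h1 }
  let aff : BG →* F :=
    { toFun := fun g => ι (MonoidAlgebra.single g 1)
      map_one' := by rw [← MonoidAlgebra.one_def, map_one]
      map_mul' := fun x y => by
        rw [← map_mul, MonoidAlgebra.single_mul_single, one_mul] }
  exact ⟨{ F := F
           M := M
           aff := aff
           mono := fun c d hcd f hf' => inM_mono ι c d hcd f hf'
           haff := fun g c f => inM_aff ι g c f
           tot := fun f f' => inM_tot ι hι hf f f'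
           one_not := inM_one_not ι hι
           one_mem := fun c hc => inM_one ι c hc }⟩

end Pool.Agent.H440S
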